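import Pool.Agent.CLG.LnD
import Pool.Agent.RSG.LDc

/-!
# CLG/ExV: extension of a compactly supported diffeo of a chart  (difficulty 2)

`ext_move`: `Move ⊥ O F` gives a compact `C ⊆ O` with `F y = y` for `y ∉ C`; `F` maps the complement of
`C` onto itself.  Define `Φ x = σ (F y)` if `x = σ y` (`y` is unique) and `Φ x = x` if `x` is not in
the range of `σ`.  `Φ` is bijective (inverse: the same with `F.symm`).  `Φ x = x` for `x ∉ σ '' C`.
`σ '' C` is compact, hence closed; on its open complement `Φ = id` is a local diffeo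
(`CSG.ld_congr`, `CSG.ld_id`); at a point `σ y`: `Φ ∘ σ = σ ∘ F` is a local diffeo at `y`
(composition, `CSG.ld_of_perm`), so `Φ` is a local diffeo at `σ y` (`CSG.ld_of_comp_left`).
`IsLocalDiffeomorph.diffeomorphOfBijective`.
-/

open scoped Manifold ContDiff Topology
open Set Filter
open Pool.Agent.ISO Pool.Agent.RSG

namespace Pool.Agent.CLG

section
variable {V : Type*} {N : Type*} {σ : V → N}

open Classical in
/-- the extension of `F` by the identity -/
noncomputable def ExV_map (σ : V → N) (F : V → V) (x : N) : N :=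
  if h : ∃ y, σ y = x then σ (F h.choose) else x

theorem ExV_map_in (hi : Function.Injective σ) (F : V → V) (y : V) :
    ExV_map σ F (σ y) = σ (F y) := by
  have h : ∃ z, σ z = σ y := ⟨y, rfl⟩
  unfold ExV_map
  rw [dif_pos h]
  congr 2
  exact hi h.choose_spec

theorem ExV_map_out (F : V → V) {x : N} (h : ¬ ∃ y, σ y = x) : ExV_map σ F x = x := by
  unfold ExV_map
  rw [dif_neg h]

theorem ExV_left (hi : Function.Injective σ) (F : Equiv.Perm V) (x : N) :
    ExV_map σ F.symm (ExV_map σ F x) = x := by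
  by_cases h : ∃ y, σ y = x
  · obtain ⟨y, rfl⟩ := h
    rw [ExV_map_in hi, ExV_map_in hi, Equiv.symm_apply_apply]
  · rw [ExV_map_out F h, ExV_map_out _ h]

end

theorem ext_move {V : Type*} [NormedAddCommGroup V] [NormedSpace ℝ V] [FiniteDimensional ℝ V]
    {N : Type*} [TopologicalSpace N] [ChartedSpace E3 N] [T2Space N]
    {σ : V → N} (hσ : ∀ y, IsLocalDiffeomorphAt 𝓘(ℝ, V) (𝓡 3) ∞ σ y)
    (hi : Function.Injective σ) {O : Set V} {F : Equiv.Perm V} (hF : Move ⊥ O F) :
    ∃ Φ : N ≃ₘ⟮𝓡 3, 𝓡 3⟯ N, (∀ y, Φ (σ y) = σ (F y)) ∧ ∀ x, x ∉ σ '' O → Φ x = x := by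
  obtain ⟨C, hC, hCO, hfix⟩ := hF.supp
  have hfix' : ∀ x, x ∉ C → F x = x := by
    intro x hx
    refine hfix x ?_
    intro m hm
    rw [AddSubgroup.mem_bot] at hm
    rw [hm, add_zero]
    exact hx
  have hcont : Continuous σ := continuous_iff_continuousAt.2 fun y => CSG.ld_continuousAt (hσ y)
  have hcl : IsClosed (σ '' C) := (hC.image hcont).isClosed
  have hid : ∀ x, x ∉ σ '' C → ExV_map σ F x = x := by
    intro x hx
    by_cases h : ∃ y, σ y = x
    · obtain ⟨y, rfl⟩ := h
      rw [ExV_map_in hi, hfix' y fun hy => hx ⟨y, hy, rfl⟩]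
    · exact ExV_map_out _ h
  have hld : ∀ x, IsLocalDiffeomorphAt (𝓡 3) (𝓡 3) ∞ (ExV_map σ F) x := by
    intro x
    by_cases h : ∃ y, σ y = x
    · obtain ⟨y, rfl⟩ := h
      have e : ExV_map σ F ∘ σ = σ ∘ F := by
        funext z
        exact ExV_map_in hi F z
      refine CSG.ld_of_comp_left (f := σ) ?_ (hσ y)
      rw [e]
      exact IsLocalDiffeomorphAt.comp (hf := CSG.ld_of_perm hF.smooth hF.smooth_symm y)
        (hg := hσ (F y)) ..
    · have hx : x ∉ σ '' C := by
        rintro ⟨y, -, rfl⟩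
        exact h ⟨y, rfl⟩
      refine CSG.ld_congr (CSG.ld_id x) ?_
      filter_upwards [hcl.isOpen_compl.mem_nhds hx] with z hz
      exact hid z hz
  have hbij : Function.Bijective (ExV_map σ F) :=
    Function.bijective_iff_has_inverse.2 ⟨ExV_map σ F.symm, ExV_left hi F, fun x => by
      have := ExV_left hi F.symm x
      rwa [Equiv.symm_symm] at this⟩
  refine ⟨IsLocalDiffeomorph.diffeomorphOfBijective (f := ExV_map σ F) hld hbij, ?_, ?_⟩
  · intro y
    exact ExV_map_in hi F y
  · intro x hx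
    apply hid
    rintro ⟨y, hy, rfl⟩
    exact hx ⟨y, hCO hy, rfl⟩

end Pool.Agent.CLG
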