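import Pool.Agent.CLG.LnD

/-!
# CLG/BL: embedded curves are bi-Lipschitz  (difficulty 2)

* `bilip_Icc`: if not, for every `n` there are `s_n, s'_n` in `[a, b]` with
  `‖k s_n - k s'_n‖ < |s_n - s'_n| / (n + 1)` (so `s_n ≠ s'_n`).  A subsequence converges to
  `(s, s')` (`IsCompact.tendsto_subseq`).  If `s ≠ s'`, the limit gives `k s = k s'`, contradiction.
  If `s = s'`: `k` has the strict derivative `deriv k s` at `s` (`ContDiffAt.hasStrictDerivAt`), so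
  `‖k s_n - k s'_n - (s_n - s'_n) • deriv k s‖ ≤ (‖deriv k s‖ / 2) |s_n - s'_n|` for large `n`, hence
  `‖k s_n - k s'_n‖ ≥ (‖deriv k s‖ / 2) |s_n - s'_n|`, contradiction for large `n`.
* `bilip_long`: choose `B ≥ 1`, `B ≥ |T|`, `‖k s‖ ≤ B` for `|s| ≤ |T|`, and `m₁` for the interval
  `[-3B, 3B]`; `m = min m₁ (1/2)`.  Let `|s| > 3B` (otherwise exchange `s` and `s'`, or both are in the
  interval).  If `|s'| ≥ T`: `k s - k s' = (0, s - s')` has norm `|s - s'|`.  If `|s'| < T ≤ B`: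
  `‖k s - k s'‖ ≥ |s| - B ≥ (|s| + B) / 2 ≥ |s - s'| / 2`.
* `lng_of_bilip`: injective is clear; if the derivative at `s` is `0`, the quotients
  `‖k s - k s'‖ / |s - s'|` tend to `0`.
-/

open scoped Manifold ContDiff Topology
open Set Filter
open Complex (I)

namespace Pool.Agent.CLG

theorem bilip_Icc {E : Type*} [NormedAddCommGroup E] [NormedSpace ℝ E] {k : ℝ → E} {a b : ℝ}
    (hk : ∀ s ∈ Icc a b, ContDiffAt ℝ 1 k s) (himm : ∀ s ∈ Icc a b, deriv k s ≠ 0)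
    (hinj : InjOn k (Icc a b)) :
    ∃ m > 0, ∀ s ∈ Icc a b, ∀ s' ∈ Icc a b, m * |s - s'| ≤ ‖k s - k s'‖ := by
  by_contra hcon
  push Not at hcon
  have hex : ∀ n : ℕ, ∃ p : ℝ × ℝ, p.1 ∈ Icc a b ∧ p.2 ∈ Icc a b ∧
      ‖k p.1 - k p.2‖ < 1 / ((n : ℝ) + 1) * |p.1 - p.2| := by
    intro n
    obtain ⟨s, hs, s', hs', h⟩ := hcon (1 / ((n : ℝ) + 1)) (by positivity)
    exact ⟨(s, s'), hs, hs', h⟩
  choose p hp1 hp2 hp3 using hex
  have hcomp : IsCompact (Icc a b ×ˢ Icc a b) := isCompact_Icc.prod isCompact_Icc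
  obtain ⟨q, hq, φ, hφ, hlim⟩ := hcomp.tendsto_subseq (x := p) (fun n => ⟨hp1 n, hp2 n⟩)
  have h1 : Tendsto (fun n => (p (φ n)).1) atTop (𝓝 q.1) := (continuous_fst.tendsto q).comp hlim
  have h2 : Tendsto (fun n => (p (φ n)).2) atTop (𝓝 q.2) := (continuous_snd.tendsto q).comp hlim
  have hε : Tendsto (fun n => 1 / ((φ n : ℝ) + 1)) atTop (𝓝 0) :=
    tendsto_one_div_add_atTop_nhds_zero_nat.comp hφ.tendsto_atTop
  have hk1 : Tendsto (fun n => k (p (φ n)).1) atTop (𝓝 (k q.1)) :=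
    (hk _ hq.1).continuousAt.tendsto.comp h1
  have hk2 : Tendsto (fun n => k (p (φ n)).2) atTop (𝓝 (k q.2)) :=
    (hk _ hq.2).continuousAt.tendsto.comp h2
  have hd : Tendsto (fun n => ‖k (p (φ n)).1 - k (p (φ n)).2‖) atTop (𝓝 ‖k q.1 - k q.2‖) :=
    (hk1.sub hk2).norm
  have hz : Tendsto (fun n => 1 / ((φ n : ℝ) + 1) * |(p (φ n)).1 - (p (φ n)).2|) atTop (𝓝 0) := by
    have := hε.mul ((h1.sub h2).abs)
    simpa using this
  have hle : ‖k q.1 - k q.2‖ ≤ 0 :=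
    le_of_tendsto_of_tendsto' hd hz (fun n => (hp3 (φ n)).le)
  have heq : k q.1 = k q.2 := sub_eq_zero.1 (norm_le_zero_iff.1 hle)
  have hqq : q.1 = q.2 := hinj hq.1 hq.2 heq
  have hstrict : HasStrictDerivAt k (deriv k q.1) q.1 :=
    (hk _ hq.1).hasStrictDerivAt (by simp)
  have hdpos : 0 < ‖deriv k q.1‖ := norm_pos_iff.2 (himm _ hq.1)
  have hlo := hstrict.hasStrictFDerivAt.isLittleO
  have hev := hlo.def (half_pos hdpos)
  have hlim' : Tendsto (fun n => p (φ n)) atTop (𝓝 (q.1, q.1)) := by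
    have : (q.1, q.1) = q := by
      ext <;> simp [hqq]
    rw [this]
    exact hlim
  have ev1 := hlim'.eventually hev
  have ev2 : ∀ᶠ n in atTop, 1 / ((φ n : ℝ) + 1) < ‖deriv k q.1‖ / 2 :=
    hε.eventually (gt_mem_nhds (half_pos hdpos))
  obtain ⟨n, hn1, hn2⟩ := (ev1.and ev2).exists
  have h3 := hp3 (φ n)
  have hpos : 0 < |(p (φ n)).1 - (p (φ n)).2| := by
    rcases (abs_nonneg ((p (φ n)).1 - (p (φ n)).2)).eq_or_lt with h | h
    · rw [← h, mul_zero] at h3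
      exact absurd h3 (not_lt.2 (norm_nonneg _))
    · exact h
  simp only [ContinuousLinearMap.toSpanSingleton_apply, Real.norm_eq_abs] at hn1
  have h4 : ‖((p (φ n)).1 - (p (φ n)).2) • deriv k q.1‖
      ≤ ‖k (p (φ n)).1 - k (p (φ n)).2‖ +
        ‖k (p (φ n)).1 - k (p (φ n)).2 - ((p (φ n)).1 - (p (φ n)).2) • deriv k q.1‖ := by
    have := norm_sub_le (k (p (φ n)).1 - k (p (φ n)).2)
      (k (p (φ n)).1 - k (p (φ n)).2 - ((p (φ n)).1 - (p (φ n)).2) • deriv k q.1)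
    simpa using this
  rw [norm_smul, Real.norm_eq_abs] at h4
  have h5 : 1 / ((φ n : ℝ) + 1) * |(p (φ n)).1 - (p (φ n)).2| <
      ‖deriv k q.1‖ / 2 * |(p (φ n)).1 - (p (φ n)).2| := mul_lt_mul_of_pos_right hn2 hpos
  nlinarith

theorem bilip_long {T : ℝ} {k : ℝ → ℂ × ℝ} (hk : Lng T k) :
    ∃ m > 0, ∀ s s' : ℝ, m * |s - s'| ≤ ‖k s - k s'‖ := by
  obtain ⟨C, hC⟩ := (isCompact_Icc (a := -|T|) (b := |T|)).exists_bound_of_continuousOn
    hk.smooth.continuous.continuousOn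
  set B : ℝ := max 1 (max |T| C) with hB
  have hB1 : 1 ≤ B := le_max_left _ _
  have hBT : |T| ≤ B := (le_max_left _ _).trans (le_max_right _ _)
  have hBC : C ≤ B := (le_max_right _ _).trans (le_max_right _ _)
  have hkB : ∀ s, |s| ≤ |T| → ‖k s‖ ≤ B := by
    intro s hs
    exact (hC s ⟨(abs_le.1 hs).1, (abs_le.1 hs).2⟩).trans hBC
  obtain ⟨m₁, hm₁, hm⟩ := bilip_Icc (k := k) (a := -(3 * B)) (b := 3 * B)
    (fun s _ => (hk.smooth.of_le (by exact_mod_cast le_top)).contDiffAt) (fun s _ => hk.imm s)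
    (hk.inj.injOn)
  have key : ∀ s s' : ℝ, 3 * B < |s| → 1 / 2 * |s - s'| ≤ ‖k s - k s'‖ := by
    intro s s' hs
    have hsT : T ≤ |s| := by
      have := le_abs_self T
      linarith
    rcases le_or_gt T |s'| with h | h
    · rw [hk.line s hsT, hk.line s' h]
      have : ‖(((0 : ℂ), s) : ℂ × ℝ) - (0, s')‖ = |s - s'| := by
        simp [Prod.norm_def]
      rw [this]
      have := abs_nonneg (s - s')
      linarith
    · have hT : |s'| ≤ |T| := h.le.trans (le_abs_self T)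
      have h1 := hkB s' hT
      have h2 : ‖k s‖ = |s| := by
        rw [hk.line s hsT]
        simp [Prod.norm_def]
      have h3 : ‖k s‖ - ‖k s'‖ ≤ ‖k s - k s'‖ := norm_sub_norm_le _ _
      have h4 : |s - s'| ≤ |s| + |s'| := abs_sub _ _
      linarith
  refine ⟨min m₁ (1 / 2), lt_min hm₁ (by norm_num), ?_⟩
  intro s s'
  have ha := abs_nonneg (s - s')
  rcases lt_or_ge (3 * B) |s| with h | h
  · exact (mul_le_mul_of_nonneg_right (min_le_right _ _) ha).trans (key s s' h)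
  · rcases lt_or_ge (3 * B) |s'| with h' | h'
    · have := key s' s h'
      rw [abs_sub_comm, norm_sub_rev]
      exact (mul_le_mul_of_nonneg_right (min_le_right _ _) (abs_nonneg _)).trans this
    · refine (mul_le_mul_of_nonneg_right (min_le_left _ _) ha).trans (hm s ?_ s' ?_)
      · exact ⟨(abs_le.1 h).1, (abs_le.1 h).2⟩
      · exact ⟨(abs_le.1 h').1, (abs_le.1 h').2⟩

theorem lng_of_bilip {T : ℝ} {k : ℝ → ℂ × ℝ} (hs : ContDiff ℝ ∞ k)
    (hl : ∀ s : ℝ, T ≤ |s| → k s = (0, s)) {m : ℝ} (hm : 0 < m)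
    (hb : ∀ s s' : ℝ, m * |s - s'| ≤ ‖k s - k s'‖) : Lng T k := by
  refine ⟨hs, ?_, ?_, hl⟩
  · intro s s' h
    have := hb s s'
    rw [h, sub_self, norm_zero] at this
    have h2 : |s - s'| ≤ 0 := by
      by_contra hc
      push Not at hc
      have := mul_pos hm hc
      linarith
    exact sub_eq_zero.1 (abs_nonpos_iff.1 h2)
  · intro s h0
    have hd : HasDerivAt k 0 s := by
      have := (hs.differentiable (by simp) s).hasDerivAt
      rwa [h0] at this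
    have hlo := hd.isLittleO
    have hev := hlo.def (half_pos hm)
    have hev2 : ∀ᶠ x in 𝓝[≠] s, ‖k x - k s - (x - s) • (0 : ℂ × ℝ)‖ ≤ m / 2 * ‖x - s‖ :=
      hev.filter_mono nhdsWithin_le_nhds
    have hev3 : ∀ᶠ x in 𝓝[≠] s, x ≠ s := eventually_mem_nhdsWithin
    obtain ⟨x, hx1, hx2⟩ := (hev2.and hev3).exists
    have h1 := hb x s
    rw [smul_zero, sub_zero, Real.norm_eq_abs] at hx1
    have h2 : 0 < |x - s| := abs_pos.2 (sub_ne_zero.2 hx2)
    nlinarith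

end Pool.Agent.CLG
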