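import Pool.Agent.ISO.Core
import Pool.Agent.CLG.BL

/-!
# CLG/StR: straightening of a curve near a point  (difficulty 3)

Two curves `y`, `u` with the same value and the same derivative `≠ 0` at `0`: there is a diffeo with
small support which carries `y` to `u` near `0`.

Proof.  Choose `δ' < δ` such that `y` is an immersion and injective on `[-δ', δ']` (strict derivative
at `0`) and `‖y l - y 0‖ < r/2` there; `m` = constant of `bilip_Icc` on `[-δ', δ']`.
`g = u - y` satisfies `g 0 = 0`, `g' 0 = 0`; with `C` = bound of `‖g''‖` on `[-δ', δ']` (or simply by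
continuity of `g'` at `0` and the mean value inequality: for every `κ > 0` there is `ρ > 0`,
`‖g' l‖ ≤ κ`, `‖g l‖ ≤ κ |l|` for `|l| ≤ ρ`).  Let `χ` be a smooth cutoff, `χ = 1` on `[-1, 1]`, `0` for
`|t| ≥ 2`, `|χ| ≤ 1`, `|χ'| ≤ B` (`Real.smoothTransition (2 - |t|)`, or `Real.smoothTransition (2 - t) *
Real.smoothTransition (2 + t)`; it is smooth with compactly supported, hence bounded derivative).
`h l = χ (l / ε) g l`: zero for `|l| ≥ 2ε`, and `‖h' l‖ ≤ (B / ε) κ 2ε + κ = (2B + 1) κ` for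
`2ε ≤ ρ`.  Choose `κ` with `(2B + 1) κ ≤ m / 2` and `ρ`, then `ε` with `3 ε < min δ' ρ` and
`‖h‖ ≤ 2 ε κ < r / 2`.  The family `k s l = y l + s h l` satisfies for `l, l'` in `[-δ', δ']`, `s` in
`[0, 1]`: `‖k s l - k s l'‖ ≥ (m / 2) |l - l'|` (mean value inequality for `h`), so it is injective and
immersed, `k s l = y l = k 0 l` for `|l| ≥ 2ε`, and `‖k s l - y 0‖ < r`.
`ISO.core_arc` with `a = -3ε`, `a' = -2ε`, `b' = 2ε`, `b = 3ε`, `a₀ = -δ'`, `b₀ = δ'`, `Λ = ⊥`,
`O = ball (y 0) r`.  For `|l| ≤ ε`: `k 1 l = y l + g l = u l`.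
-/

open scoped Manifold ContDiff Topology
open Set Filter
open Pool.Agent.ISO

namespace Pool.Agent.CLG

section
variable {E : Type*} [NormedAddCommGroup E] [NormedSpace ℝ E]

theorem StR_strict {y : ℝ → E} {v : E} (hy : HasStrictDerivAt y v 0) {c : ℝ} (hc : 0 < c) :
    ∃ ρ > 0, ∀ l l' : ℝ, |l| < ρ → |l'| < ρ → ‖y l - y l' - (l - l') • v‖ ≤ c * |l - l'| := by
  have h1 := hy.hasStrictFDerivAt.isLittleO.def hc
  obtain ⟨ρ, hρ, h2⟩ := Metric.eventually_nhds_iff.1 h1
  refine ⟨ρ, hρ, fun l l' hl hl' => ?_⟩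
  have h3 := h2 (y := (l, l')) (by
    rw [Prod.dist_eq]
    refine max_lt ?_ ?_
    · show dist l 0 < ρ
      rw [Real.dist_eq, sub_zero]
      exact hl
    · show dist l' 0 < ρ
      rw [Real.dist_eq, sub_zero]
      exact hl')
  simpa using h3

/-- lower bound implies a nonzero derivative -/
theorem StR_imm {k : ℝ → E} {v : E} (hv : v ≠ 0) {R l : ℝ} (hl : |l| < R)
    (hk : ∀ l l' : ℝ, |l| < R → |l'| < R → ‖k l - k l' - (l - l') • v‖ ≤ ‖v‖ / 2 * |l - l'|)
    (hd : DifferentiableAt ℝ k l) : deriv k l ≠ 0 := by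
  intro h0
  have h1 : HasDerivAt k 0 l := by
    rw [← h0]
    exact hd.hasDerivAt
  have hv' : 0 < ‖v‖ := norm_pos_iff.2 hv
  have h2 := (hasDerivAt_iff_isLittleO.1 h1).def (c := ‖v‖ / 4) (by positivity)
  have h3 : ∀ᶠ l' in 𝓝 l, |l'| < R := continuous_abs.continuousAt.eventually_lt
    continuousAt_const hl
  obtain ⟨η, hη, h4⟩ := Metric.eventually_nhds_iff.1 (h2.and h3)
  obtain ⟨h5, h6⟩ := h4 (y := l + η / 2) (by
    rw [Real.dist_eq, add_sub_cancel_left, abs_of_pos (by positivity)]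
    linarith)
  rw [smul_zero, sub_zero, add_sub_cancel_left, Real.norm_eq_abs] at h5
  have h7 := hk (l + η / 2) l h6 hl
  rw [add_sub_cancel_left] at h7
  have h8 : ‖(η / 2) • v‖ ≤ ‖k (l + η / 2) - k l‖ + ‖k (l + η / 2) - k l - (η / 2) • v‖ := by
    have h9 : (η / 2) • v = (k (l + η / 2) - k l) - (k (l + η / 2) - k l - (η / 2) • v) := by abel
    calc ‖(η / 2) • v‖ = ‖(k (l + η / 2) - k l) - (k (l + η / 2) - k l - (η / 2) • v)‖ := by
          rw [← h9]
      _ ≤ _ := norm_sub_le _ _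
  rw [norm_smul, Real.norm_eq_abs] at h8
  have h10 : 0 < |η / 2| := by positivity
  have h11 : |η / 2| * ‖v‖ ≤ ‖v‖ / 4 * |η / 2| + ‖v‖ / 2 * |η / 2| := by linarith
  have h12 : 0 < |η / 2| * ‖v‖ := mul_pos h10 hv'
  linarith

end

theorem straighten {E : Type*} [NormedAddCommGroup E] [NormedSpace ℝ E] [FiniteDimensional ℝ E]
    {δ : ℝ} (hδ : 0 < δ) {y u : ℝ → E} (hy : ∀ l, |l| < δ → ContDiffAt ℝ ∞ y l)
    (hu : ∀ l, |l| < δ → ContDiffAt ℝ ∞ u l) (h0 : y 0 = u 0) (h1 : deriv y 0 = deriv u 0)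
    (h2 : deriv y 0 ≠ 0) {r : ℝ} (hr : 0 < r) :
    ∃ ε > 0, ∃ F : Equiv.Perm E, Move ⊥ (Metric.ball (y 0) r) F ∧ ∀ l, |l| ≤ ε → F (y l) = u l := by
  set v := deriv y 0 with hv
  have hv0 : 0 < ‖v‖ := norm_pos_iff.2 h2
  have hδ0 : |(0 : ℝ)| < δ := by rwa [abs_zero]
  have sy : HasStrictDerivAt y v 0 := (hy 0 hδ0).hasStrictDerivAt (by simp)
  have su : HasStrictDerivAt u v 0 := by
    rw [h1]
    exact (hu 0 hδ0).hasStrictDerivAt (by simp)
  have sg : HasStrictDerivAt (fun l => u l - y l) 0 0 := by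
    have := su.sub sy
    rwa [sub_self] at this
  -- the cutoff
  let f : ContDiffBump (0 : ℝ) := ⟨1, 2, one_pos, one_lt_two⟩
  obtain ⟨B, hB⟩ := ContDiff.lipschitzWith_of_hasCompactSupport (𝕂 := ℝ) f.hasCompactSupport
    (f.contDiff (n := 1)) (by simp)
  have hf1 : ∀ t, |t| ≤ 1 → f t = 1 := fun t ht => f.one_of_mem_closedBall (by
    rw [Metric.mem_closedBall, Real.dist_eq, sub_zero]; exact ht)
  have hf2 : ∀ t, 2 ≤ |t| → f t = 0 := fun t ht => f.zero_of_le_dist (by
    rw [Real.dist_eq, sub_zero]; exact ht)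
  have hB0 : 0 ≤ (B : ℝ) := B.2
  set κ : ℝ := ‖v‖ / (4 * (1 + 4 * B)) with hκ
  have hκ0 : 0 < κ := by positivity
  have hκ1 : (1 + 4 * B) * κ = ‖v‖ / 4 := by
    rw [hκ]
    field_simp
  obtain ⟨ρ₁, hρ₁, hy'⟩ := StR_strict sy (c := ‖v‖ / 4) (by positivity)
  obtain ⟨ρ₂, hρ₂, hg'⟩ := StR_strict sg hκ0
  set m : ℝ := min (min δ ρ₁) (min ρ₂ (r / ‖v‖)) with hm
  have hm0 : 0 < m := lt_min (lt_min hδ hρ₁) (lt_min hρ₂ (by positivity))
  have m1 : m ≤ δ := (min_le_left _ _).trans (min_le_left _ _)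
  have m2 : m ≤ ρ₁ := (min_le_left _ _).trans (min_le_right _ _)
  have m3 : m ≤ ρ₂ := (min_le_right _ _).trans (min_le_left _ _)
  have m4 : m ≤ r / ‖v‖ := (min_le_right _ _).trans (min_le_right _ _)
  set ε : ℝ := m / 5 with hε
  have hε0 : 0 < ε := by positivity
  have e1 : 4 * ε < m := by rw [hε]; linarith
  have e2 : 3 * ‖v‖ * ε < r := by
    have h3 : m * ‖v‖ ≤ r := by
      rwa [le_div_iff₀ hv0] at m4
    rw [hε]
    nlinarith
  let k : ℝ → ℝ → E := fun s l => y l + s • (f (l / ε) • (u l - y l))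
  have key : ∀ s ∈ Icc (0 : ℝ) 1, ∀ l l' : ℝ, |l| < 4 * ε → |l'| < 4 * ε →
      ‖k s l - k s l' - (l - l') • v‖ ≤ ‖v‖ / 2 * |l - l'| := by
    intro s hs l l' hl hl'
    have a1 := hy' l l' (by linarith) (by linarith)
    have a2 := hg' l l' (by linarith) (by linarith)
    have a3 := hg' l' 0 (by linarith) (by rw [abs_zero]; linarith)
    rw [smul_zero, sub_zero] at a2 a3
    rw [← h0, sub_self, sub_zero, sub_zero] at a3
    have a4 : |f (l / ε) - f (l' / ε)| ≤ B * (|l - l'| / ε) := by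
      have b1 := hB.dist_le_mul (l / ε) (l' / ε)
      rw [Real.dist_eq, Real.dist_eq, ← sub_div, abs_div, abs_of_pos hε0] at b1
      exact b1
    have a5 : ‖f (l / ε) • (u l - y l) - f (l' / ε) • (u l' - y l')‖ ≤
        (1 + 4 * B) * κ * |l - l'| := by
      have b1 : f (l / ε) • (u l - y l) - f (l' / ε) • (u l' - y l') =
          f (l / ε) • ((u l - y l) - (u l' - y l')) + (f (l / ε) - f (l' / ε)) • (u l' - y l') := by
        module
      rw [b1]
      refine (norm_add_le _ _).trans ?_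
      rw [norm_smul, norm_smul, Real.norm_of_nonneg f.nonneg, Real.norm_eq_abs]
      have b2 : f (l / ε) * ‖(u l - y l) - (u l' - y l')‖ ≤ 1 * (κ * |l - l'|) :=
        mul_le_mul f.le_one a2 (norm_nonneg _) zero_le_one
      have b3 : |f (l / ε) - f (l' / ε)| * ‖u l' - y l'‖ ≤
          (B * (|l - l'| / ε)) * (κ * (4 * ε)) := by
        refine mul_le_mul a4 (a3.trans ?_) (norm_nonneg _) (by positivity)
        exact mul_le_mul_of_nonneg_left hl'.le hκ0.le
      have b4 : (B * (|l - l'| / ε)) * (κ * (4 * ε)) = 4 * B * κ * |l - l'| := by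
        field_simp
      linarith
    have a6 : k s l - k s l' - (l - l') • v = (y l - y l' - (l - l') • v) +
        s • (f (l / ε) • (u l - y l) - f (l' / ε) • (u l' - y l')) := by
      show (y l + s • (f (l / ε) • (u l - y l))) - (y l' + s • (f (l' / ε) • (u l' - y l'))) -
        (l - l') • v = _
      rw [smul_sub s]
      abel
    rw [a6]
    refine (norm_add_le _ _).trans ?_
    rw [norm_smul, Real.norm_of_nonneg hs.1]
    have a7 : s * ‖f (l / ε) • (u l - y l) - f (l' / ε) • (u l' - y l')‖ ≤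
        1 * ((1 + 4 * B) * κ * |l - l'|) := mul_le_mul hs.2 a5 (norm_nonneg _) zero_le_one
    rw [hκ1] at a7
    linarith
  have hks : ∀ s l : ℝ, |l| < 4 * ε → ContDiffAt ℝ ∞ (fun q : ℝ × ℝ => k q.1 q.2) (s, l) := by
    intro s l hl
    have b1 : ContDiffAt ℝ ∞ (fun q : ℝ × ℝ => y q.2) (s, l) :=
      ContDiffAt.comp (s, l) (hy l (by linarith)) contDiffAt_snd
    have b2 : ContDiffAt ℝ ∞ (fun q : ℝ × ℝ => u q.2) (s, l) :=
      ContDiffAt.comp (s, l) (hu l (by linarith)) contDiffAt_snd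
    have b3 : ContDiffAt ℝ ∞ (fun q : ℝ × ℝ => f (q.2 / ε)) (s, l) :=
      (f.contDiff.comp (contDiff_snd.div_const ε)).contDiffAt
    exact b1.add (contDiffAt_fst.smul (b3.smul (b2.sub b1)))
  have hkd : ∀ s l : ℝ, |l| < 4 * ε → DifferentiableAt ℝ (k s) l := by
    intro s l hl
    have b1 : DifferentiableAt ℝ (fun q : ℝ × ℝ => k q.1 q.2) (s, l) :=
      (hks s l hl).differentiableAt (by simp)
    have b2 : DifferentiableAt ℝ (fun l : ℝ => (s, l)) l :=
      (differentiableAt_const s).prodMk differentiableAt_id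
    exact DifferentiableAt.comp l b1 b2
  have hk0 : ∀ s, k s 0 = y 0 := by
    intro s
    show y 0 + s • (f (0 / ε) • (u 0 - y 0)) = y 0
    rw [← h0, sub_self, smul_zero, smul_zero, add_zero]
  have hab : ∀ l : ℝ, l ∈ Icc (-(3 * ε)) (3 * ε) → |l| < 4 * ε := by
    intro l hl
    have := abs_le.2 hl
    linarith
  obtain ⟨F, F1, F2⟩ := core_arc (E := E) (Λ := ⊥) (O := Metric.ball (y 0) r) (k := k)
    (a₀ := -(4 * ε)) (a := -(3 * ε)) (a' := -(2 * ε)) (b' := 2 * ε) (b := 3 * ε) (b₀ := 4 * ε)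
    (by
      intro R
      refine (Set.finite_singleton (0 : E)).subset ?_
      rintro x ⟨hx, -⟩
      exact hx)
    Metric.isOpen_ball (by linarith) (by linarith) (by linarith) (by linarith)
    (fun s _ l hl => hks s l (abs_lt.2 hl))
    (by
      intro s _ l _ hl
      have b1 : 2 ≤ |l / ε| := by
        rw [abs_div, abs_of_pos hε0, le_div_iff₀ hε0, le_abs]
        rcases hl with hl | hl
        · exact Or.inr (by linarith)
        · exact Or.inl hl
      show y l + s • (f (l / ε) • (u l - y l)) = y l + (0 : ℝ) • (f (l / ε) • (u l - y l))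
      rw [hf2 _ b1, zero_smul, smul_zero, smul_zero])
    (by
      intro s hs l hl
      have b0 : |l| ≤ 2 * ε := abs_le.2 hl
      have b1 := key s hs l 0 (by linarith) (by rw [abs_zero]; positivity)
      rw [hk0, sub_zero] at b1
      rw [Metric.mem_ball, dist_eq_norm]
      have b2 : k s l - y 0 = (k s l - y 0 - l • v) + l • v := by abel
      rw [b2]
      refine lt_of_le_of_lt (norm_add_le _ _) ?_
      rw [norm_smul, Real.norm_eq_abs]
      nlinarith [mul_le_mul_of_nonneg_left b0 hv0.le])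
    (fun s hs l hl => StR_imm h2 (hab l hl) (key s hs) (hkd s l (hab l hl)))
    (by
      intro s hs l hl l' hl' m hm he
      have hm0 : m = 0 := hm
      rw [hm0, add_zero] at he
      have b1 := key s hs l l' (hab l hl) (hab l' hl')
      rw [he, sub_self, zero_sub, norm_neg, norm_smul, Real.norm_eq_abs] at b1
      by_contra hne
      have b2 : 0 < |l - l'| := abs_pos.2 (sub_ne_zero.2 hne)
      have b3 := mul_pos b2 hv0
      linarith)
  refine ⟨ε, hε0, F, F1, ?_⟩
  intro l hl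
  have hl' := abs_le.1 hl
  have b1 := F2 l ⟨by linarith, by linarith⟩
  have b2 : k 0 l = y l := by
    show y l + (0 : ℝ) • (f (l / ε) • (u l - y l)) = y l
    rw [zero_smul, add_zero]
  have b3 : k 1 l = u l := by
    have b4 : |l / ε| ≤ 1 := by
      rw [abs_div, abs_of_pos hε0, div_le_one hε0]
      exact hl
    show y l + (1 : ℝ) • (f (l / ε) • (u l - y l)) = u l
    rw [hf1 _ b4, one_smul, one_smul, add_sub_cancel]
  rw [b2, b3] at b1
  exact b1

end Pool.Agent.CLG
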