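import Pool.Agent.CLG.IOb
import Pool.Agent.CLG.StR
import Pool.Agent.CLG.ExV

/-!
# CLG/A0c: a closed curve which is tangent to `Un` becomes equal to `Un` near a point (difficulty 2)

`K 0 = pol = (0,0,1,0)`, so `(K l : E4) 2 > 0` for `|l| < δ` (`δ ≤ 1/2`).  `y l = oi' (K l)` is smooth for
`|l| < δ` (`oiE'_smooth`, or `oi'_smooth` and `contMDiffAt_iff_contDiffAt`), `y 0 = 0`,
`y' 0 = fderiv (oiE') (pol) (2π e3) = (0, π)` (only the numerators `x 3` of the last coordinate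
`x 3 / (1 + x 2)` changes at first order; `1 + x 2 = 2` at `pol`).
`u l = (0, tan (π l))`: smooth for `|l| < 1/2`, `u 0 = 0`, `u' 0 = (0, π)`.
`straighten` (with `r = 1`) gives `F`, `ε` and `ext_move` (`σ = io'`, `io'_ld`, `io'_inj`) gives `Φ`.
For `|l| ≤ min ε (δ/2)`: `Φ (K l) = Φ (io' (y l)) = io' (F (y l)) = io' (u l) = Un l` (`io'_tan`).
-/

open scoped Manifold ContDiff Topology
open Set Filter
open Complex (I)
open Pool.Agent.RSG Pool.Agent.ISO

namespace Pool.Agent.CLG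

theorem A0c_cplx {a b : ℝ → ℝ} {a' b' l : ℝ} (ha : HasDerivAt a a' l) (hb : HasDerivAt b b' l) :
    HasDerivAt (fun l => (⟨a l, b l⟩ : ℂ)) ⟨a', b'⟩ l :=
  Complex.equivRealProdCLM.symm.hasFDerivAt.comp_hasDerivAt l (ha.prodMk hb)

theorem A0c_y {K : ℝ → S3} (h0 : K 0 = pol)
    (h1 : HasDerivAt (fun l => (K l : E4)) (WithLp.toLp 2 ![0, 0, 0, 2 * Real.pi]) 0) :
    HasDerivAt (fun l => oi' (K l)) ((0 : ℂ), Real.pi) 0 := by
  have hc : ∀ i : Fin 4, HasDerivAt (fun l => (K l : E4) i)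
      ((WithLp.toLp 2 ![0, 0, 0, 2 * Real.pi] : E4) i) 0 := fun i =>
    (EuclideanSpace.proj (𝕜 := ℝ) i).hasFDerivAt.comp_hasDerivAt (0 : ℝ) h1
  have v : ∀ i : Fin 4, (K 0 : E4) i = (WithLp.toLp 2 ![0, 0, 1, 0] : E4) i := by
    intro i
    rw [h0, pol_coe]
  have v0 : (K 0 : E4) 0 = 0 := v 0
  have v1 : (K 0 : E4) 1 = 0 := v 1
  have v2 : (K 0 : E4) 2 = 1 := v 2
  have v3 : (K 0 : E4) 3 = 0 := v 3
  have c0 : HasDerivAt (fun l => (K l : E4) 0) 0 0 := hc 0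
  have c1 : HasDerivAt (fun l => (K l : E4) 1) 0 0 := hc 1
  have c2 : HasDerivAt (fun l => (K l : E4) 2) 0 0 := hc 2
  have c3 : HasDerivAt (fun l => (K l : E4) 3) (2 * Real.pi) 0 := hc 3
  have cd : HasDerivAt (fun l => 1 + (K l : E4) 2) 0 0 := c2.const_add 1
  have hne : 1 + (K 0 : E4) 2 ≠ 0 := by
    rw [v2]
    norm_num
  have d0 := c0.div cd hne
  have d1 := c1.div cd hne
  have d3 := c3.div cd hne
  have d := (A0c_cplx d0 d1).prodMk d3
  rw [v0, v1, v2, v3] at d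
  have e : ((⟨(0 * (1 + 1) - 0 * 0) / (1 + 1) ^ 2, (0 * (1 + 1) - 0 * 0) / (1 + 1) ^ 2⟩ : ℂ),
      (2 * Real.pi * (1 + 1) - 0 * 0) / (1 + 1) ^ 2) = ((0 : ℂ), Real.pi) := by
    refine Prod.ext ?_ ?_
    · apply Complex.ext <;> simp
    · show (2 * Real.pi * (1 + 1) - 0 * 0) / (1 + 1) ^ 2 = Real.pi
      ring
  rw [e] at d
  exact d

theorem A0c_cos {l : ℝ} (h : |l| < 1 / 2) : 0 < Real.cos (Real.pi * l) := by
  have h1 := abs_lt.1 h
  apply Real.cos_pos_of_mem_Ioo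
  constructor
  · nlinarith [Real.pi_pos]
  · nlinarith [Real.pi_pos]

theorem A0c_u : HasDerivAt (fun l : ℝ => ((0 : ℂ), Real.tan (Real.pi * l))) ((0 : ℂ), Real.pi) 0 := by
  have h1 : HasDerivAt (fun l : ℝ => Real.pi * l) Real.pi 0 := by
    simpa using (hasDerivAt_id (0 : ℝ)).const_mul Real.pi
  have h2 : HasDerivAt Real.tan 1 (Real.pi * 0) := by
    have := Real.hasDerivAt_tan (x := Real.pi * 0) (by simp)
    simpa using this
  have h3 : HasDerivAt (fun l : ℝ => Real.tan (Real.pi * l)) (1 * Real.pi) 0 := h2.comp (0 : ℝ) h1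
  rw [one_mul] at h3
  exact (hasDerivAt_const (0 : ℝ) (0 : ℂ)).prodMk h3

theorem A0c {K : ℝ → S3} (hK : EmbS K) (h0 : K 0 = pol)
    (h1 : HasDerivAt (fun l => (K l : E4)) (WithLp.toLp 2 ![0, 0, 0, 2 * Real.pi]) 0) :
    ∃ Φ : S3 ≃ₘ⟮𝓡 3, 𝓡 3⟯ S3, ∃ ε > 0, ∀ l, |l| ≤ ε → Φ (K l) = Un l := by
  have hcont : Continuous fun l => (K l : E4) 2 := by
    have h2 : Continuous fun l => (K l : E4) := continuous_subtype_val.comp hK.smooth.continuous
    exact (EuclideanSpace.proj (𝕜 := ℝ) (2 : Fin 4)).continuous.comp h2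
  have hpos : 0 < (K 0 : E4) 2 := by
    rw [h0, pol_coe]
    show (0 : ℝ) < 1
    exact one_pos
  obtain ⟨δ', hδ', hδ''⟩ := Metric.eventually_nhds_iff.1 (hcont.continuousAt.eventually (lt_mem_nhds hpos))
  have hlt : ∀ l, |l| < min δ' (1 / 2) → 0 < (K l : E4) 2 := by
    intro l hl
    apply hδ''
    rw [Real.dist_eq, sub_zero]
    exact hl.trans_le (min_le_left _ _)
  have hd := A0c_y h0 h1
  obtain ⟨ε, hε, F, hF, hFu⟩ := straighten (E := ℂ × ℝ) (δ := min δ' (1 / 2)) (by positivity)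
    (y := fun l => oi' (K l)) (u := fun l => ((0 : ℂ), Real.tan (Real.pi * l)))
    (fun l hl => by
      have h2 : ContMDiffAt 𝓘(ℝ, ℝ) 𝓘(ℝ, ℂ × ℝ) ∞ (oi' ∘ K) l :=
        ContMDiffAt.comp l (oi'_smooth (by have := hlt l hl; linarith)) (hK.smooth l)
      exact contMDiffAt_iff_contDiffAt.1 h2)
    (fun l hl => by
      have h2 : ContDiffAt ℝ ∞ Real.tan (Real.pi * l) :=
        Real.contDiffAt_tan.2 (A0c_cos (hl.trans_le (min_le_right _ _))).ne'
      have h3 : ContDiffAt ℝ ∞ (fun l : ℝ => Real.tan (Real.pi * l)) l :=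
        h2.comp l (contDiffAt_const.mul contDiffAt_id)
      exact contDiffAt_const.prodMk h3)
    (by
      show oi' (K 0) = ((0 : ℂ), Real.tan (Real.pi * 0))
      rw [h0]
      show oiE' (pol : E4) = _
      rw [pol_coe]
      refine Prod.ext ?_ ?_
      · apply Complex.ext <;> simp [oiE']
      · simp [oiE'])
    (by rw [hd.deriv, A0c_u.deriv])
    (by
      rw [hd.deriv]
      intro h2
      exact Real.pi_ne_zero (congrArg Prod.snd h2))
    one_pos
  obtain ⟨Φ, hΦ, -⟩ := ext_move io'_ld io'_inj hF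
  refine ⟨Φ, min ε (min δ' (1 / 2) / 2), by positivity, ?_⟩
  intro l hl
  have hl1 : |l| < min δ' (1 / 2) := by
    have h2 := hl.trans (min_le_right _ _)
    have h3 : 0 < min δ' (1 / 2) := by positivity
    linarith
  have e1 : K l = io' (oi' (K l)) := (io'_oi' (by have := hlt l hl1; linarith)).symm
  rw [e1, hΦ, hFu l (hl.trans (min_le_left _ _))]
  exact io'_tan (hl1.trans_le (min_le_right _ _))

end Pool.Agent.CLG
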