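import Pool.Agent.CLG.IOb

/-!
# CLG/A0d: closed curves which contain a piece of `Un` are closures of long curves  (difficulty 3)

We may assume `ε < 1/2`.  `K 0 = Un 0 = pol`, hence `K l ≠ pol` for `0 < l < 1` (`inj`).
`k s = oi (K (act s))`, `T = ct ε > 0`.
* smooth: `act_mem`, `act_smooth`, `oi_smooth`.
* `io (k s) = K (act s)` (`io_oi`).  Injective: `K (act s) = K (act s')` gives `act s - act s'` an
  integer of absolute value `< 1`, so `act s = act s'`, `s = ct (act s) = s'`.
* immersed: the curve `s ↦ (io (k s) : E4) = (K (act s) : E4)` has the derivative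
  `act' s • K' (act s) ≠ 0`; if `deriv k s = 0` its derivative would be `0` by the chain rule
  (`io_coe_smooth`).
* line: `s ≥ T = ct ε`: `act s ≤ ε` (`act` is decreasing, `act (ct ε) = ε`), so
  `K (act s) = Un (act s) = io (0, ct (act s)) = io (0, s)` (`io_ct`, `ct_act`) and `oi_io`;
  `s ≤ -T`: `act s ≥ 1 - ε` (`act (-s) = 1 - act s`), `K (act s) = K (act s - 1) = Un (act s - 1) =
  Un (act s)`, the same.
* `LC k l = K l`: for integers both are `pol` (period).  Otherwise both sides have period `1`
  (`ct_add_one`), so let `0 < l < 1`: `io (k (ct l)) = K (act (ct l)) = K l`.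
-/

open scoped Manifold ContDiff Topology
open Set Filter
open Complex (I)
open Pool.Agent.RSG

namespace Pool.Agent.CLG

theorem A0d_anti {s t : ℝ} (h : s ≤ t) : act t ≤ act s := by
  have h1 := Real.arctan_mono h
  have h2 : Real.arctan s / Real.pi ≤ Real.arctan t / Real.pi :=
    div_le_div_of_nonneg_right h1 Real.pi_pos.le
  unfold act
  linarith

theorem A0d_neg (s : ℝ) : act (-s) = 1 - act s := by
  unfold act
  rw [Real.arctan_neg]
  ring

theorem A0d_notint (s : ℝ) : ¬ ∃ m : ℤ, act s = m := by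
  rintro ⟨m, hm⟩
  obtain ⟨h0, h1⟩ := act_mem s
  rw [hm] at h0 h1
  have h2 : (0 : ℤ) < m := by exact_mod_cast h0
  have h3 : m < (1 : ℤ) := by exact_mod_cast h1
  omega

theorem A0d_io (s : ℝ) : io (0, s) = Un (act s) := by
  have := io_ct ((sin_ne_iff (act s)).2 (A0d_notint s))
  rwa [ct_act] at this

theorem A0d_ne {K : ℝ → S3} (hK : EmbS K) (h0 : K 0 = pol) (s : ℝ) : K (act s) ≠ pol := by
  intro h
  obtain ⟨m, hm⟩ := hK.inj 0 (act s) (h0.trans h.symm)
  exact A0d_notint s ⟨m, by rw [hm, zero_add]⟩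

theorem long_of_emb {K : ℝ → S3} (hK : EmbS K) {ε : ℝ} (hε : 0 < ε)
    (hU : ∀ l, |l| ≤ ε → K l = Un l) : ∃ T k, 0 < T ∧ Lng T k ∧ LC k = K := by
  set δ : ℝ := min ε (1 / 4) with hδ
  have hδ0 : 0 < δ := lt_min hε (by norm_num)
  have hδε : δ ≤ ε := min_le_left _ _
  have hδ4 : δ ≤ 1 / 4 := min_le_right _ _
  have hUn0 : Un 0 = pol := by
    have := Un_int 0
    simpa using this
  have hK0 : K 0 = pol := (hU 0 (by simpa using hε.le)).trans hUn0
  have hne := A0d_ne hK hK0
  have hio : ∀ s, io (oi (K (act s))) = K (act s) := fun s => io_oi (hne s)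
  have hperK : Function.Periodic K 1 := hK.per
  have hsm : ContDiff ℝ ∞ (fun s => oi (K (act s))) := by
    rw [contDiff_iff_contDiffAt]
    intro s
    rw [← contMDiffAt_iff_contDiffAt]
    have h1 : ContMDiffAt 𝓘(ℝ, ℝ) 𝓘(ℝ, ℝ) ∞ act s := act_smooth.contDiffAt.contMDiffAt
    have h2 : ContMDiffAt 𝓘(ℝ, ℝ) (𝓡 3) ∞ (fun s => K (act s)) s :=
      ContMDiffAt.comp s (hK.smooth (act s)) h1
    have h3 : ContMDiffAt 𝓘(ℝ, ℝ) 𝓘(ℝ, ℂ × ℝ) ∞ (oi ∘ fun s => K (act s)) s :=
      ContMDiffAt.comp (I' := 𝓡 3) (g := oi) (f := fun s => K (act s)) s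
        (oi_smooth (hne s)) h2
    exact h3
  have hctpos : 0 < ct δ := by
    have hpi := Real.pi_pos
    have h1 : 0 < Real.pi * δ := by positivity
    have h2 : Real.pi * δ < Real.pi / 2 := by nlinarith
    exact div_pos (Real.cos_pos_of_mem_Ioo ⟨by linarith, h2⟩)
      (Real.sin_pos_of_pos_of_lt_pi h1 (by linarith))
  have hact : act (ct δ) = δ := act_ct hδ0 (by linarith)
  refine ⟨ct δ, fun s => oi (K (act s)), hctpos, ⟨hsm, ?_, ?_, ?_⟩, ?_⟩
  · intro s s' h
    have h1 : K (act s) = K (act s') := by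
      rw [← hio s, ← hio s']
      exact congrArg io h
    obtain ⟨m, hm⟩ := hK.inj _ _ h1
    obtain ⟨a0, a1⟩ := act_mem s
    obtain ⟨b0, b1⟩ := act_mem s'
    have h2 : ((-1 : ℤ) : ℝ) < m := by push_cast; linarith
    have h3 : (m : ℝ) < ((1 : ℤ) : ℝ) := by push_cast; linarith
    have h4 : (-1 : ℤ) < m := by exact_mod_cast h2
    have h5 : m < (1 : ℤ) := by exact_mod_cast h3
    have h6 : m = 0 := by omega
    rw [h6, Int.cast_zero, add_zero] at hm
    rw [← ct_act s, ← ct_act s', hm]
  · intro s h0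
    have h1 : HasDerivAt (fun s => oi (K (act s))) 0 s := by
      rw [← h0]
      exact ((hsm.differentiable (by simp)) s).hasDerivAt
    have h2 : HasFDerivAt (fun y : ℂ × ℝ => (io y : E4))
        (fderiv ℝ (fun y : ℂ × ℝ => (io y : E4)) (oi (K (act s)))) (oi (K (act s))) :=
      ((io_coe_smooth.differentiable (by simp)) _).hasFDerivAt
    have h3 : HasDerivAt (fun s => (io (oi (K (act s))) : E4))
        (fderiv ℝ (fun y : ℂ × ℝ => (io y : E4)) (oi (K (act s))) 0) s :=
      HasFDerivAt.comp_hasDerivAt (f := fun s => oi (K (act s))) s h2 h1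
    rw [map_zero] at h3
    have h4 : (fun s => (io (oi (K (act s))) : E4)) = fun s => (K (act s) : E4) := by
      funext t
      rw [hio t]
    rw [h4] at h3
    have h5 : DifferentiableAt ℝ (fun l => (K l : E4)) (act s) :=
      differentiableAt_of_deriv_ne_zero (hK.imm (act s))
    have h6 : HasDerivAt (fun s => (K (act s) : E4))
        (-(1 / (Real.pi * (1 + s ^ 2))) • deriv (fun l => (K l : E4)) (act s)) s :=
      HasDerivAt.scomp s h5.hasDerivAt (act_hasDerivAt s)
    have h7 := h3.unique h6
    have h8 : -(1 / (Real.pi * (1 + s ^ 2))) ≠ 0 := by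
      have hpi := Real.pi_pos
      have : 0 < 1 / (Real.pi * (1 + s ^ 2)) := by positivity
      exact neg_ne_zero.2 this.ne'
    rcases smul_eq_zero.1 h7.symm with h9 | h9
    · exact h8 h9
    · exact hK.imm _ h9
  · intro s hs
    have key : K (act s) = Un (act s) := by
      rcases le_abs.1 hs with h1 | h1
      · have h2 := A0d_anti h1
        rw [hact] at h2
        have h3 := (act_mem s).1
        exact hU _ (by rw [abs_of_pos h3]; linarith)
      · have h2 := A0d_anti h1
        rw [hact, A0d_neg] at h2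
        have h3 := (act_mem s).2
        have h4 : K (act s - 1) = Un (act s - 1) :=
          hU _ (by rw [abs_of_neg (by linarith)]; linarith)
        have h5 := hK.per (act s - 1)
        have h6 := Un_add_one (act s - 1)
        rw [sub_add_cancel] at h5 h6
        rw [h5, h6, h4]
    show oi (K (act s)) = (0, s)
    rw [key, ← A0d_io, oi_io]
  · funext l
    unfold LC
    by_cases hl : ∃ m : ℤ, l = m
    · rw [if_pos hl]
      obtain ⟨m, hm⟩ := hl
      have h1 := hperK.int_mul m 0
      rw [zero_add, mul_one] at h1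
      rw [hm, h1, hK0]
    · rw [if_neg hl]
      have hfr0 : 0 < Int.fract l := by
        rcases (Int.fract_nonneg l).eq_or_lt with h | h
        · exfalso
          apply hl
          refine ⟨⌊l⌋, ?_⟩
          have := Int.floor_add_fract l
          linarith
        · exact h
      have hfr1 := Int.fract_lt_one l
      have hl' : l = Int.fract l + ⌊l⌋ * 1 := by
        have := Int.floor_add_fract l
        linarith
      have hct : ct l = ct (Int.fract l) := by
        have hper : Function.Periodic ct 1 := ct_add_one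
        have := hper.int_mul ⌊l⌋ (Int.fract l)
        rwa [← hl'] at this
      have hKl : K l = K (Int.fract l) := by
        have := hperK.int_mul ⌊l⌋ (Int.fract l)
        rwa [← hl'] at this
      rw [hct, hKl, hio, act_ct hfr0 hfr1]

end Pool.Agent.CLG
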