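import Pool.Agent.CLG.IOb
import Pool.Agent.CLG.ExV

/-!
# CLG/LCe: the closure of a long curve is an embedded closed curve; transfer of diffeos (difficulty 2)

* `LC_emb`.  Near an integer `m`: `|ct l| → ∞` for `l → m`, `l ≠ m`, so `|ct l| ≥ T` and
  `LC k l = io (0, ct l) = Un l` (`io_ct`); also `LC k m = pol = Un m`.  So `LC k = Un` near `m`
  (`Un_emb`).  Near a noninteger `l`: `LC k = io ∘ k ∘ ct` (noninteger points form an open set),
  smooth; if the derivative at `l` in `E4` were `0`, then also that of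
  `k ∘ ct = oiE ∘ (coe ∘ io ∘ k ∘ ct)` (`oi_io`, `oiE_smooth`, chain rule), but this is
  `ct' l • k' (ct l) ≠ 0` (`ct_hasDerivAt`).
  Period: `ct_add_one`.  `inj`: for nonintegers `io_inj`, `Lng.inj` give `ct l = ct l'`; subtract
  `⌊l⌋`, `⌊l'⌋` (period) and use `act_ct`.  `io y ≠ pol` excludes the mixed case.
* `LC_move`: `ext_move` with `σ = io`, `O = univ`; `pol` is not in the range of `io`, so `Φ pol = pol`.
-/

open scoped Manifold ContDiff Topology
open Set Filter
open Complex (I)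
open Pool.Agent.RSG Pool.Agent.ISO

namespace Pool.Agent.CLG

theorem LCe_int (k : ℝ → ℂ × ℝ) {l : ℝ} (h : ∃ m : ℤ, l = m) : LC k l = pol := by
  unfold LC
  rw [if_pos h]

theorem LCe_non (k : ℝ → ℂ × ℝ) {l : ℝ} (h : ¬ ∃ m : ℤ, l = m) : LC k l = io (k (ct l)) := by
  unfold LC
  rw [if_neg h]

theorem LCe_open {l : ℝ} (h : ¬ ∃ m : ℤ, l = m) : ∀ᶠ y : ℝ in 𝓝 l, ¬ ∃ m : ℤ, y = m := by
  have h1 : Real.sin (Real.pi * l) ≠ 0 := (sin_ne_iff l).2 h
  have h2 : Continuous fun l : ℝ => Real.sin (Real.pi * l) :=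
    Real.continuous_sin.comp (continuous_const.mul continuous_id)
  filter_upwards [h2.continuousAt.eventually_ne h1] with y hy
  exact (sin_ne_iff y).1 hy

theorem LCe_near {T : ℝ} {k : ℝ → ℂ × ℝ} (hk : Lng T k) (m : ℤ) : ∀ᶠ l : ℝ in 𝓝 (m : ℝ), LC k l = Un l := by
  have h1 : Continuous fun l : ℝ => T * |Real.sin (Real.pi * l)| :=
    continuous_const.mul (Real.continuous_sin.comp (continuous_const.mul continuous_id)).abs
  have h2 : Continuous fun l : ℝ => |Real.cos (Real.pi * l)| :=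
    (Real.continuous_cos.comp (continuous_const.mul continuous_id)).abs
  have h3 : Real.sin (Real.pi * (m : ℝ)) = 0 := by
    rw [mul_comm]
    exact Real.sin_int_mul_pi m
  have h4 : 0 < |Real.cos (Real.pi * (m : ℝ))| := by
    rw [abs_pos]
    intro h0
    have := Real.sin_sq_add_cos_sq (Real.pi * (m : ℝ))
    rw [h0, h3] at this
    norm_num at this
  have h5 : ∀ᶠ l : ℝ in 𝓝 (m : ℝ), T * |Real.sin (Real.pi * l)| < |Real.cos (Real.pi * l)| := by
    apply h1.continuousAt.eventually_lt h2.continuousAt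
    rw [h3, abs_zero, mul_zero]
    exact h4
  filter_upwards [h5] with l hl
  by_cases hi : ∃ n : ℤ, l = n
  · rw [LCe_int k hi]
    obtain ⟨n, rfl⟩ := hi
    exact (Un_int n).symm
  · have hs := (sin_ne_iff l).2 hi
    rw [LCe_non k hi, hk.line, io_ct hs]
    unfold ct
    rw [abs_div, le_div_iff₀ (abs_pos.2 hs)]
    exact hl.le

theorem LCe_smooth {T : ℝ} {k : ℝ → ℂ × ℝ} (hk : Lng T k) : ContMDiff 𝓘(ℝ, ℝ) (𝓡 3) ∞ (LC k) := by
  intro l
  by_cases hi : ∃ m : ℤ, l = m
  · obtain ⟨m, rfl⟩ := hi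
    exact (Un_emb.smooth m).congr_of_eventuallyEq (LCe_near hk m)
  · have h1 : ContDiffAt ℝ ∞ (fun y => k (ct y)) l :=
      (hk.smooth.contDiffAt).comp l (ct_smooth ((sin_ne_iff l).2 hi))
    have h2 : ContMDiffAt 𝓘(ℝ, ℝ) (𝓡 3) ∞ (io ∘ fun y => k (ct y)) l :=
      ContMDiffAt.comp (g := io) (f := fun y => k (ct y)) l (io_smooth (k (ct l))) h1.contMDiffAt
    refine h2.congr_of_eventuallyEq ?_
    filter_upwards [LCe_open hi] with y hy
    exact LCe_non k hy

theorem LCe_ct_per : Function.Periodic ct 1 := ct_add_one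

theorem LCe_fract {l : ℝ} (h : ¬ ∃ m : ℤ, l = m) : act (ct l) = Int.fract l := by
  have h1 : ct l = ct (Int.fract l) := by
    have := LCe_ct_per.sub_int_mul_eq ⌊l⌋ (x := l)
    rw [mul_one] at this
    exact this.symm
  rw [h1]
  apply act_ct
  · refine lt_of_le_of_ne (Int.fract_nonneg l) (fun h0 => h ⟨⌊l⌋, ?_⟩)
    have := Int.floor_add_fract l
    rw [← h0, add_zero] at this
    exact this.symm
  · exact Int.fract_lt_one l

theorem LC_emb {T : ℝ} {k : ℝ → ℂ × ℝ} (hk : Lng T k) : EmbS (LC k) := by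
  refine ⟨LCe_smooth hk, ?_, ?_, ?_⟩
  · intro l
    by_cases hi : ∃ m : ℤ, l = m
    · rw [LCe_int k hi, LCe_int]
      obtain ⟨m, rfl⟩ := hi
      exact ⟨m + 1, by push_cast; rfl⟩
    · rw [LCe_non k hi, LCe_non, ct_add_one]
      rintro ⟨m, hm⟩
      exact hi ⟨m - 1, by push_cast; linarith⟩
  · intro l l' he
    by_cases hi : ∃ m : ℤ, l = m
    · by_cases hi' : ∃ m : ℤ, l' = m
      · obtain ⟨m, rfl⟩ := hi
        obtain ⟨m', rfl⟩ := hi'
        exact ⟨m' - m, by push_cast; ring⟩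
      · exfalso
        rw [LCe_int k hi, LCe_non k hi'] at he
        exact io_ne _ he.symm
    · by_cases hi' : ∃ m : ℤ, l' = m
      · exfalso
        rw [LCe_int k hi', LCe_non k hi] at he
        exact io_ne _ he
      · rw [LCe_non k hi, LCe_non k hi'] at he
        have h1 : ct l = ct l' := hk.inj (io_inj he)
        have h2 : Int.fract l = Int.fract l' := by
          rw [← LCe_fract hi, ← LCe_fract hi', h1]
        refine ⟨⌊l'⌋ - ⌊l⌋, ?_⟩
        have h3 := Int.floor_add_fract l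
        have h4 := Int.floor_add_fract l'
        push_cast
        linarith
  · intro l
    by_cases hi : ∃ m : ℤ, l = m
    · obtain ⟨m, rfl⟩ := hi
      have h1 : (fun l => (LC k l : E4)) =ᶠ[𝓝 (m : ℝ)] fun l => (Un l : E4) := by
        filter_upwards [LCe_near hk m] with y hy
        rw [hy]
      rw [h1.deriv_eq]
      exact Un_emb.imm m
    · intro h0
      have hs := (sin_ne_iff l).2 hi
      have hev : (fun l => (LC k l : E4)) =ᶠ[𝓝 l] fun l => (io (k (ct l)) : E4) := by
        filter_upwards [LCe_open hi] with y hy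
        rw [LCe_non k hy]
      have hct := ct_hasDerivAt hs
      have hk' : HasDerivAt (fun y => k (ct y)) (-(Real.pi / Real.sin (Real.pi * l) ^ 2) • deriv k (ct l)) l :=
        ((hk.smooth.differentiable (by simp)) (ct l)).hasDerivAt.scomp l hct
      have hd : DifferentiableAt ℝ (fun l => (LC k l : E4)) l := by
        have h1 : DifferentiableAt ℝ ((fun y => (io y : E4)) ∘ fun l => k (ct l)) l :=
          DifferentiableAt.comp (g := fun y => (io y : E4)) (f := fun l => k (ct l)) l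
            ((io_coe_smooth.differentiable (by simp)) (k (ct l))) hk'.differentiableAt
        exact h1.congr_of_eventuallyEq hev
      have hd' := hd.hasDerivAt
      rw [h0] at hd'
      have hne : (LC k l : E4) 2 ≠ 1 := by
        rw [LCe_non k hi]
        exact (ne_pol_iff _).1 (io_ne _)
      have ho : HasFDerivAt oiE (fderiv ℝ oiE (LC k l : E4)) (LC k l : E4) :=
        ((oiE_smooth hne).differentiableAt (by simp)).hasFDerivAt
      have h2 := ho.comp_hasDerivAt l hd'
      rw [map_zero] at h2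
      have h3 : (oiE ∘ fun l => (LC k l : E4)) =ᶠ[𝓝 l] fun y => k (ct y) := by
        filter_upwards [LCe_open hi] with y hy
        show oiE (LC k y : E4) = _
        rw [LCe_non k hy]
        exact oi_io _
      have h4 := (h2.congr_of_eventuallyEq h3.symm).unique hk'
      rcases smul_eq_zero.1 h4.symm with h5 | h5
      · rw [neg_eq_zero] at h5
        rcases div_eq_zero_iff.1 h5 with h6 | h6
        · exact Real.pi_ne_zero h6
        · exact hs (pow_eq_zero_iff (two_ne_zero)|>.1 h6)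
      · exact hk.imm _ h5

theorem LC_move {F : Equiv.Perm (ℂ × ℝ)} (hF : Move ⊥ univ F) :
    ∃ Φ : S3 ≃ₘ⟮𝓡 3, 𝓡 3⟯ S3, Φ pol = pol ∧ (∀ y, Φ (io y) = io (F y)) ∧
      ∀ (k k' : ℝ → ℂ × ℝ), (∀ s, F (k s) = k' s) → ∀ l, Φ (LC k l) = LC k' l := by
  obtain ⟨Φ, h1, h2⟩ := ext_move io_ld io_inj hF
  have hpol : Φ pol = pol := by
    apply h2
    rintro ⟨y, -, hy⟩
    exact io_ne y hy
  refine ⟨Φ, hpol, h1, ?_⟩
  intro k k' hkk l
  by_cases hi : ∃ m : ℤ, l = m
  · rw [LCe_int k hi, LCe_int k' hi, hpol]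
  · rw [LCe_non k hi, LCe_non k' hi, h1, hkk]

end Pool.Agent.CLG
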