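import Pool.Agent.CLG.IOb

/-!
# CLG/LDi: a diffeo of `S3` which carries a point and a tangent vector to given ones  (difficulty 2)

* `lin_diffeo`: `Φ x = toSph (L x)` (`L x ≠ 0`), inverse `toSph (L⁻¹ x)`: `L⁻¹ (t L x) = t x` and
  `toSph (t x) = x` for `t > 0`, `‖x‖ = 1`.  Smooth by `toSph_smooth`.
* `exists_lin`: extend both pairs to bases of `E4` (`exists_linearIndependent..`,
  `LinearIndependent.extend`, or a basis `b` with `b i = p, b j = v`), map the one to the other
  (`Basis.equiv`); all linear maps are continuous in finite dimension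
  (`LinearEquiv.toContinuousLinearEquiv`).
* `A0b`: `p = K 0`, `v = K'(0)` (derivative in `E4`).  `⟪p, v⟫ = 0` (derivative of
  `‖K l‖² = 1`), `v ≠ 0`, so `p`, `v` are linearly independent.  Take `L p = e2 = (0,0,1,0)` and
  `L v = 2π e3`.  Then `Φ (K l) = ‖L K l‖⁻¹ • L K l`; its derivative at `0`: `‖L K 0‖ = 1`,
  the derivative of `‖L K l‖` at `0` is `⟪e2, 2π e3⟫ = 0`, so the derivative is `L v = 2π e3`.
-/

open scoped Manifold ContDiff Topology
open Set Filter
open Pool.Agent.RSG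

namespace Pool.Agent.CLG

theorem LDi_ne (x : S3) : (x : E4) ≠ 0 := by
  intro h
  have h1 := norm_eq_of_mem_sphere x
  rw [h, norm_zero] at h1
  exact zero_ne_one h1

/-- the map of the sphere induced by `L` -/
noncomputable def LDi_f (L : E4 ≃L[ℝ] E4) (x : S3) : S3 := toSph x (L (x : E4))

theorem LDi_Lne (L : E4 ≃L[ℝ] E4) (x : S3) : L (x : E4) ≠ 0 := by
  intro h
  exact LDi_ne x (L.map_eq_zero_iff.1 h)

theorem LDi_coe (L : E4 ≃L[ℝ] E4) (x : S3) : (LDi_f L x : E4) = ‖L (x : E4)‖⁻¹ • L (x : E4) :=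
  toSph_coe _ (LDi_Lne L x)

theorem LDi_inv (L : E4 ≃L[ℝ] E4) (x : S3) : LDi_f L.symm (LDi_f L x) = x := by
  apply Subtype.ext
  rw [LDi_coe, LDi_coe, map_smul, ContinuousLinearEquiv.symm_apply_apply, norm_smul, norm_inv,
    norm_norm, norm_eq_of_mem_sphere x, mul_one, inv_inv, smul_smul,
    mul_inv_cancel₀ (norm_ne_zero_iff.2 (LDi_Lne L x)), one_smul]

theorem LDi_smooth (L : E4 ≃L[ℝ] E4) : ContMDiff (𝓡 3) (𝓡 3) ∞ (LDi_f L) := by
  have hF := Fact.mk (@finrank_euclideanSpace_fin ℝ _ (3 + 1))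
  have e0 : S3 := ⟨EuclideanSpace.single 0 1, by simp⟩
  have e : LDi_f L = fun x : S3 => toSph e0 (L (x : E4)) := by
    funext x
    apply Subtype.ext
    rw [LDi_coe, toSph_coe _ (LDi_Lne L x)]
  rw [e]
  intro x
  have h1 : ContMDiffAt (𝓡 3) 𝓘(ℝ, E4) ∞ (fun x : S3 => L (x : E4)) x :=
    (L.contDiff.contMDiff.comp (contMDiff_coe_sphere (n := 3) (m := ∞))) x
  exact (toSph_smooth (E := E4) (n := 3) e0 (LDi_Lne L x)).comp x h1

theorem lin_diffeo (L : E4 ≃L[ℝ] E4) :
    ∃ Φ : S3 ≃ₘ⟮𝓡 3, 𝓡 3⟯ S3, ∀ x : S3, (Φ x : E4) = ‖L (x : E4)‖⁻¹ • L (x : E4) := by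
  refine ⟨{ toFun := LDi_f L
            invFun := LDi_f L.symm
            left_inv := LDi_inv L
            right_inv := fun x => LDi_inv L.symm x
            contMDiff_toFun := LDi_smooth L
            contMDiff_invFun := LDi_smooth L.symm }, fun x => LDi_coe L x⟩

theorem exists_lin {p v p' v' : E4} (h : LinearIndependent ℝ ![p, v])
    (h' : LinearIndependent ℝ ![p', v']) : ∃ L : E4 ≃L[ℝ] E4, L p = p' ∧ L v = v' := by
  obtain ⟨g, hg⟩ := Submodule.exists_linearEquiv_restrict_eq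
    (h.linearCombinationEquiv.symm ≪≫ₗ h'.linearCombinationEquiv)
  have key : ∀ i : Fin 2, g (![p, v] i) = ![p', v'] i := by
    intro i
    have h1 := hg (h.linearCombinationEquiv (Finsupp.single i 1))
    have h2 : ((h.linearCombinationEquiv (Finsupp.single i 1) :
        Submodule.span ℝ (Set.range ![p, v])) : E4) = ![p, v] i := by
      rw [LinearIndependent.linearCombinationEquiv_apply_coe, Finsupp.linearCombination_single, one_smul]
    rw [h2] at h1
    rw [← h1, LinearEquiv.trans_apply, LinearEquiv.symm_apply_apply,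
      LinearIndependent.linearCombinationEquiv_apply_coe, Finsupp.linearCombination_single, one_smul]
  refine ⟨g.toContinuousLinearEquiv, ?_, ?_⟩
  · exact key 0
  · exact key 1

/-- the two target vectors -/
noncomputable def LDi_e2 : E4 := WithLp.toLp 2 ![0, 0, 1, 0]
noncomputable def LDi_e3 : E4 := WithLp.toLp 2 ![0, 0, 0, 2 * Real.pi]

theorem LDi_ind : LinearIndependent ℝ ![LDi_e2, LDi_e3] := by
  rw [LinearIndependent.pair_iff]
  intro a b h
  have h2 := congrArg (fun v : E4 => v 2) h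
  have h3 := congrArg (fun v : E4 => v 3) h
  have h2' : a * 1 + b * 0 = 0 := h2
  have h3' : a * 0 + b * (2 * Real.pi) = 0 := h3
  have hpi := Real.pi_ne_zero
  refine ⟨by linarith, ?_⟩
  have h4 : b * (2 * Real.pi) = 0 := by linarith
  exact (mul_eq_zero.1 h4).resolve_right (by positivity)

theorem LDi_inner : @inner ℝ E4 _ LDi_e2 LDi_e3 = 0 := by
  rw [PiLp.inner_apply, Fin.sum_univ_four]
  simp [LDi_e2, LDi_e3]

theorem LDi_norm : ‖LDi_e2‖ = 1 := by
  have h := norm_eq_of_mem_sphere pol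
  rw [pol_coe] at h
  exact h

theorem A0b {K : ℝ → S3} (hK : EmbS K) : ∃ Φ : S3 ≃ₘ⟮𝓡 3, 𝓡 3⟯ S3, Φ (K 0) = pol ∧
    HasDerivAt (fun l => (Φ (K l) : E4)) (WithLp.toLp 2 ![0, 0, 0, 2 * Real.pi]) 0 := by
  have hF := Fact.mk (@finrank_euclideanSpace_fin ℝ _ (3 + 1))
  have hks : ContDiff ℝ ∞ fun l => (K l : E4) :=
    ((contMDiff_coe_sphere (n := 3) (m := ∞)).comp hK.smooth).contDiff
  obtain ⟨v, hv⟩ : ∃ v, v = deriv (fun l => (K l : E4)) 0 := ⟨_, rfl⟩
  have hd : HasDerivAt (fun l => (K l : E4)) v 0 := by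
    rw [hv]
    exact ((hks.differentiable (by simp)) 0).hasDerivAt
  have hv0 : v ≠ 0 := by
    rw [hv]
    exact hK.imm 0
  have hn1 : ∀ l, ‖(K l : E4)‖ = 1 := fun l => norm_eq_of_mem_sphere (K l)
  have horth : @inner ℝ E4 _ (K 0 : E4) v = 0 := by
    have h1 := hd.norm_sq
    have h2 : HasDerivAt (fun l => ‖(K l : E4)‖ ^ 2) 0 0 := by
      have : (fun l => ‖(K l : E4)‖ ^ 2) = fun _ => 1 := by
        funext l
        rw [hn1, one_pow]
      rw [this]
      exact hasDerivAt_const (0 : ℝ) (1 : ℝ)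
    have h3 := h1.unique h2
    linarith
  have hind : LinearIndependent ℝ ![(K 0 : E4), v] := by
    rw [LinearIndependent.pair_iff]
    intro a b h
    have h1 : @inner ℝ E4 _ (K 0 : E4) (a • (K 0 : E4) + b • v) = 0 := by rw [h, inner_zero_right]
    rw [inner_add_right, real_inner_smul_right, real_inner_smul_right, horth,
      real_inner_self_eq_norm_sq, hn1] at h1
    have ha : a = 0 := by linarith
    refine ⟨ha, ?_⟩
    rw [ha, zero_smul, zero_add] at h
    exact (smul_eq_zero.1 h).resolve_right hv0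
  obtain ⟨L, hL1, hL2⟩ := exists_lin hind LDi_ind
  obtain ⟨Φ, hΦ⟩ := lin_diffeo L
  refine ⟨Φ, ?_, ?_⟩
  · apply Subtype.ext
    rw [hΦ, hL1, LDi_norm, inv_one, one_smul, pol_coe]
    rfl
  · have e : (fun l => (Φ (K l) : E4)) = fun l => ‖L (K l : E4)‖⁻¹ • L (K l : E4) :=
      funext fun l => hΦ (K l)
    rw [e]
    have h1 : HasDerivAt (fun l => L (K l : E4)) LDi_e3 0 := by
      have := (L : E4 →L[ℝ] E4).hasFDerivAt.comp_hasDerivAt (0 : ℝ) hd
      rw [← hL2]
      exact this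
    have h2 : HasDerivAt (fun l => ‖L (K l : E4)‖ ^ 2) 0 0 := by
      have := h1.norm_sq
      rw [hL1, LDi_inner, mul_zero] at this
      exact this
    have h3 : HasDerivAt (fun l => ‖L (K l : E4)‖) 0 0 := by
      have h4 := h2.sqrt (by rw [hL1, LDi_norm]; norm_num)
      rw [zero_div] at h4
      have h5 : (fun l => Real.sqrt (‖L (K l : E4)‖ ^ 2)) = fun l => ‖L (K l : E4)‖ :=
        funext fun l => Real.sqrt_sq (norm_nonneg _)
      rw [h5] at h4
      exact h4
    have h6 : HasDerivAt (fun l => ‖L (K l : E4)‖⁻¹) 0 0 := by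
      have h7 := h3.inv (by rw [hL1, LDi_norm]; exact one_ne_zero)
      rw [neg_zero, zero_div] at h7
      exact h7
    have h8 := h6.smul h1
    rw [hL1, LDi_norm, inv_one, one_smul, zero_smul, add_zero] at h8
    exact h8

end Pool.Agent.CLG
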