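import Pool.Agent.CLG.A0d
import Pool.Agent.CLG.A0c
import Pool.Agent.CLG.LDi
import Pool.Agent.CLG.LCe

/-!
# CLG/A0m: every embedded closed curve of `S3` is, after a diffeo, the closure of a long curve
-/

open scoped Manifold ContDiff Topology
open Set Filter
open Complex (I)
open Pool.Agent.RSG

namespace Pool.Agent.CLG

theorem A0 {K : ℝ → S3} (hK : EmbS K) :
    ∃ (Φ : S3 ≃ₘ⟮𝓡 3, 𝓡 3⟯ S3) (T : ℝ) (k : ℝ → ℂ × ℝ), 0 < T ∧ Lng T k ∧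
      ∀ l, Φ (K l) = LC k l := by
  obtain ⟨Φ₁, h0, h1⟩ := A0b hK
  have hK1 := emb_comp hK Φ₁
  obtain ⟨Φ₂, ε, hε, h2⟩ := A0c (K := Φ₁ ∘ K) hK1 h0 h1
  have hK2 := emb_comp hK1 Φ₂
  obtain ⟨T, k, hT, hk, hLC⟩ := long_of_emb hK2 hε h2
  refine ⟨Φ₁.trans Φ₂, T, k, hT, hk, fun l => ?_⟩
  rw [hLC]; rfl

end Pool.Agent.CLG
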