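import Pool.Agent.CLK.GPd

/-!
# CLG/FD: an immersed plane curve with transverse double points has finitely many  (difficulty 2)

Let `D = {p | p.1, p.2 ∈ [a, b], p.1 ≠ p.2, c p.1 = c p.2}`, contained in the compact square.  If `D` is
infinite there is an accumulation point `(s, s')` of `D` (`Set.Infinite.exists_accPt_of_subset_isCompact`);
by continuity `c s = c s'`, and `s, s' ∈ [a, b]`.
* `s ≠ s'`: the map `G (x, y) = c x - c y` has at `(s, s')` the strict derivative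
  `(α, β) ↦ α c'(s) - β c'(s')`, which is injective (`dt ≠ 0`), hence antilipschitz, so `G` is
  injective near `(s, s')`; but it vanishes at `(s, s')` and at points of `D` different from
  `(s, s')` arbitrarily near, contradiction.
* `s = s'`: by the strict derivative `c'(s) ≠ 0` the curve `c` is injective near `s`
  (`‖c x - c y - (x - y) c'(s)‖ ≤ ‖c'(s)‖ |x - y| / 2`), but points `(x, y)` of `D` near `(s, s)` have
  `x ≠ y`, `c x = c y`, contradiction.
-/

open scoped ContDiff Topology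
open Set Filter
open Pool.Agent.CLK (dt)

namespace Pool.Agent.CLG

theorem FD_dt {z w : ℂ} (h : dt z w ≠ 0) {α β : ℝ} (he : α • z - β • w = 0) : α = 0 ∧ β = 0 := by
  have h1 : α * z.re - β * w.re = 0 := by simpa using congrArg Complex.re he
  have h2 : α * z.im - β * w.im = 0 := by simpa using congrArg Complex.im he
  have h3 : α * dt z w = 0 := by
    rw [dt]
    linear_combination w.im * h1 - w.re * h2
  have h4 : β * dt z w = 0 := by
    rw [dt]
    linear_combination z.im * h1 - z.re * h2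
  exact ⟨(mul_eq_zero.mp h3).resolve_right h, (mul_eq_zero.mp h4).resolve_right h⟩

/-- immersed: locally injective -/
theorem FD_imm {c : ℝ → ℂ} (hc : ContDiff ℝ 1 c) {s : ℝ} (h : deriv c s ≠ 0) :
    ∀ᶠ p : ℝ × ℝ in 𝓝 (s, s), c p.1 = c p.2 → p.1 = p.2 := by
  have h1 : HasStrictDerivAt c (deriv c s) s := by
    have h2 := (hc.contDiffAt (x := s)).hasStrictFDerivAt (by simp)
    have h3 := h2.hasStrictDerivAt
    exact h3
  have h2 : 0 < ‖deriv c s‖ / 2 := by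
    have := norm_pos_iff.mpr h
    linarith
  have h3 := (hasStrictFDerivAt_iff_isLittleO.mp h1.hasStrictFDerivAt).def h2
  filter_upwards [h3] with p hp he
  by_contra hne
  rw [he, sub_self, zero_sub, norm_neg, ContinuousLinearMap.toSpanSingleton_apply, norm_smul] at hp
  have h4 : 0 < ‖p.1 - p.2‖ := norm_pos_iff.mpr (sub_ne_zero.mpr hne)
  nlinarith [mul_pos h2 h4]

/-- transversal: isolated -/
theorem FD_trv {c : ℝ → ℂ} (hc : ContDiff ℝ 1 c) {s s' : ℝ} (h : dt (deriv c s) (deriv c s') ≠ 0)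
    (he : c s = c s') :
    ∀ᶠ p : ℝ × ℝ in 𝓝 (s, s'), c p.1 = c p.2 → p = (s, s') := by
  have hd : ∀ x, HasStrictDerivAt c (deriv c x) x := fun x =>
    ((hc.contDiffAt (x := x)).hasStrictFDerivAt (by simp)).hasStrictDerivAt
  obtain ⟨A, hA⟩ : ∃ A : ℝ × ℝ →L[ℝ] ℂ, A =
      (ContinuousLinearMap.toSpanSingleton ℝ (deriv c s)).comp (ContinuousLinearMap.fst ℝ ℝ ℝ) -
        (ContinuousLinearMap.toSpanSingleton ℝ (deriv c s')).comp (ContinuousLinearMap.snd ℝ ℝ ℝ) :=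
    ⟨_, rfl⟩
  have hG : HasStrictFDerivAt (fun p : ℝ × ℝ => c p.1 - c p.2) A (s, s') := by
    rw [hA]
    have h1 : HasStrictFDerivAt (fun p : ℝ × ℝ => c p.1)
        ((ContinuousLinearMap.toSpanSingleton ℝ (deriv c s)).comp (ContinuousLinearMap.fst ℝ ℝ ℝ)) (s, s') :=
      (hd s).hasStrictFDerivAt.comp (s, s') (f := fun p : ℝ × ℝ => p.1)
        (hasStrictFDerivAt_fst (𝕜 := ℝ) (p := (s, s')))
    have h2 : HasStrictFDerivAt (fun p : ℝ × ℝ => c p.2)
        ((ContinuousLinearMap.toSpanSingleton ℝ (deriv c s')).comp (ContinuousLinearMap.snd ℝ ℝ ℝ)) (s, s') :=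
      (hd s').hasStrictFDerivAt.comp (s, s') (f := fun p : ℝ × ℝ => p.2)
        (hasStrictFDerivAt_snd (𝕜 := ℝ) (p := (s, s')))
    exact h1.sub h2
  have hker : LinearMap.ker (A : ℝ × ℝ →ₗ[ℝ] ℂ) = ⊥ := by
    rw [LinearMap.ker_eq_bot']
    rintro ⟨α, β⟩ h1
    have h2 : α • deriv c s - β • deriv c s' = 0 := by
      have : A (α, β) = 0 := h1
      rw [hA] at this
      simpa using this
    obtain ⟨h3, h4⟩ := FD_dt h h2
    rw [h3, h4]
    rfl
  obtain ⟨K, hK, hanti⟩ := (A : ℝ × ℝ →ₗ[ℝ] ℂ).exists_antilipschitzWith hker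
  have hK' : (0 : ℝ) < K := hK
  have h2 : (0 : ℝ) < 1 / (2 * K) := by positivity
  have h3 := (hasStrictFDerivAt_iff_isLittleO.mp hG).def h2
  have h4 : Filter.Tendsto (fun p : ℝ × ℝ => (p, (s, s'))) (𝓝 (s, s')) (𝓝 ((s, s'), (s, s'))) := by
    have : Continuous fun p : ℝ × ℝ => (p, (s, s')) := by fun_prop
    exact this.tendsto (s, s')
  filter_upwards [h4.eventually h3] with p hp hce
  by_contra hne
  have h5 : 0 < ‖p - (s, s')‖ := norm_pos_iff.mpr (sub_ne_zero.mpr hne)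
  simp only [hce, he, sub_self, zero_sub, norm_neg] at hp
  have h6 := hanti.le_mul_dist p (s, s')
  rw [dist_eq_norm, dist_eq_norm] at h6
  have h7 : A p - A (s, s') = A (p - (s, s')) := (map_sub A _ _).symm
  have h8 : ‖p - (s, s')‖ ≤ K * ‖A (p - (s, s'))‖ := by
    rw [← h7]
    exact h6
  have h9 : (K : ℝ) * ‖A (p - (s, s'))‖ ≤ K * (1 / (2 * K) * ‖p - (s, s')‖) :=
    mul_le_mul_of_nonneg_left hp hK'.le
  have h10 : (K : ℝ) * (1 / (2 * K) * ‖p - (s, s')‖) = ‖p - (s, s')‖ / 2 := by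
    field_simp
  linarith

theorem fin_double {c : ℝ → ℂ} (hc : ContDiff ℝ 1 c) {a b : ℝ}
    (himm : ∀ s ∈ Icc a b, deriv c s ≠ 0)
    (htr : ∀ s ∈ Icc a b, ∀ s' ∈ Icc a b, s ≠ s' → c s = c s' → dt (deriv c s) (deriv c s') ≠ 0) :
    {p : ℝ × ℝ | p.1 ∈ Icc a b ∧ p.2 ∈ Icc a b ∧ p.1 ≠ p.2 ∧ c p.1 = c p.2}.Finite := by
  by_contra hinf
  have hinf' : {p : ℝ × ℝ | p.1 ∈ Icc a b ∧ p.2 ∈ Icc a b ∧ p.1 ≠ p.2 ∧ c p.1 = c p.2}.Infinite := hinf
  have hsub : {p : ℝ × ℝ | p.1 ∈ Icc a b ∧ p.2 ∈ Icc a b ∧ p.1 ≠ p.2 ∧ c p.1 = c p.2} ⊆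
      Icc a b ×ˢ Icc a b := fun p hp => ⟨hp.1, hp.2.1⟩
  obtain ⟨⟨s, s'⟩, ⟨hs, hs'⟩, hacc⟩ :=
    hinf'.exists_accPt_of_subset_isCompact (isCompact_Icc.prod isCompact_Icc) hsub
  rw [accPt_iff_frequently] at hacc
  have hcl : c s = c s' := by
    have hC : IsClosed {p : ℝ × ℝ | c p.1 = c p.2} :=
      isClosed_eq (hc.continuous.comp continuous_fst) (hc.continuous.comp continuous_snd)
    have h1 : ∃ᶠ p in 𝓝 (s, s'), p ∈ {p : ℝ × ℝ | c p.1 = c p.2} :=
      hacc.mono fun p hp => hp.2.2.2.2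
    exact hC.mem_of_frequently_of_tendsto h1 tendsto_id
  by_cases hne : s = s'
  · subst hne
    obtain ⟨p, hp, hp'⟩ := (hacc.and_eventually (FD_imm hc (himm s hs))).exists
    exact hp.2.2.2.1 (hp' hp.2.2.2.2)
  · obtain ⟨p, hp, hp'⟩ := (hacc.and_eventually (FD_trv hc (htr s hs s' hs' hne hcl) hcl)).exists
    exact hp.1 (hp' hp.2.2.2.2)

end Pool.Agent.CLG
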