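import Pool.Agent.CLG.LnD
import Pool.Agent.RSG.SphA
import Pool.Agent.RSG.SphB
import Pool.Agent.RSG.LDc

/-!
# CLG/IOa: the two stereographic projections  (difficulty 2)

`D = ‖y.1‖² + y.2² + 1`; the vector normalised in `io y` has norm `D`
(`4 ‖y.1‖² + (D - 2)² + 4 y.2² = D²`), so the coordinates of `io y` are
`2 re / D, 2 im / D, (D - 2) / D, 2 y.2 / D` (`toSph_coe`).  `1 - x 2 = 2 / D`, hence `oi (io y) = y`.
`pol` has coordinates `(0, 0, 1, 0)`; `x ≠ pol` iff `x 2 ≠ 1` (a unit vector with `x 2 = 1` is `pol`),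
then `io (oi x) = x` is computed with `x 0² + x 1² + x 2² + x 3² = 1`.
`io` is smooth (`pS3_smooth`), `oi` is smooth off `pol` (smooth functions of the coordinates of the
sphere, `contMDiff_coe_sphere`), so `io_ld` follows with `RSG.ld_two`.
The same for `io'`, `oi'` with `pS3 0 (-1)` (coordinates `(0, 0, -1, 0)`) instead of `pol`.
-/

open scoped Manifold ContDiff Topology
open Set Filter
open Complex (I)
open Pool.Agent.RSG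

namespace Pool.Agent.CLG

theorem IOa_coe {a b : ℂ} {D : ℝ} (hD : 0 < D) (H : ‖a‖ ^ 2 + ‖b‖ ^ 2 = D ^ 2) :
    (pS3 a b : E4) = WithLp.toLp 2 ![a.re / D, a.im / D, b.re / D, b.im / D] := by
  have n1 : ‖(WithLp.toLp 2 ![a.re, a.im, b.re, b.im] : E4)‖ = D := by
    have h1 : ‖(WithLp.toLp 2 ![a.re, a.im, b.re, b.im] : E4)‖ ^ 2 = D ^ 2 := by
      rw [SphB_norm, Fin.sum_univ_four, ← H, ← SphB_cx', ← SphB_cx' b, ← add_assoc]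
      rfl
    exact (sq_eq_sq₀ (norm_nonneg _) hD.le).1 h1
  have h0 : (WithLp.toLp 2 ![a.re, a.im, b.re, b.im] : E4) ≠ 0 := by
    intro h
    rw [h, norm_zero] at n1
    exact hD.ne n1
  unfold pS3
  rw [toSph_coe _ h0, n1]
  ext i
  fin_cases i <;> simp [div_eq_inv_mul]

theorem IOa_D (y : ℂ × ℝ) : 0 < ‖y.1‖ ^ 2 + y.2 ^ 2 + 1 := by positivity

theorem IOa_two (z : ℂ) : ‖2 * z‖ ^ 2 = 4 * ‖z‖ ^ 2 := by
  rw [norm_mul, mul_pow]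
  norm_num

theorem IOa_H (y : ℂ × ℝ) : ‖2 * y.1‖ ^ 2 + ‖(⟨‖y.1‖ ^ 2 + y.2 ^ 2 - 1, 2 * y.2⟩ : ℂ)‖ ^ 2 =
    (‖y.1‖ ^ 2 + y.2 ^ 2 + 1) ^ 2 := by
  rw [IOa_two, SphB_cx (‖y.1‖ ^ 2 + y.2 ^ 2 - 1) (2 * y.2)]
  ring

theorem IOa_H' (y : ℂ × ℝ) : ‖2 * y.1‖ ^ 2 + ‖(⟨1 - ‖y.1‖ ^ 2 - y.2 ^ 2, 2 * y.2⟩ : ℂ)‖ ^ 2 =
    (‖y.1‖ ^ 2 + y.2 ^ 2 + 1) ^ 2 := by
  rw [IOa_two, SphB_cx (1 - ‖y.1‖ ^ 2 - y.2 ^ 2) (2 * y.2)]
  ring

theorem io_coe (y : ℂ × ℝ) : (io y : E4) = WithLp.toLp 2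
    ![2 * y.1.re / (‖y.1‖ ^ 2 + y.2 ^ 2 + 1), 2 * y.1.im / (‖y.1‖ ^ 2 + y.2 ^ 2 + 1),
      (‖y.1‖ ^ 2 + y.2 ^ 2 - 1) / (‖y.1‖ ^ 2 + y.2 ^ 2 + 1),
      2 * y.2 / (‖y.1‖ ^ 2 + y.2 ^ 2 + 1)] := by
  unfold io
  rw [IOa_coe (IOa_D y) (IOa_H y)]
  have e1 : (2 * y.1).re = 2 * y.1.re := by simp
  have e2 : (2 * y.1).im = 2 * y.1.im := by simp
  rw [e1, e2]

theorem IOa_nsq : ContDiff ℝ ∞ (fun y : ℂ × ℝ => ‖y.1‖ ^ 2) :=
  (contDiff_norm_sq ℝ).comp contDiff_fst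

theorem IOa_re : ContDiff ℝ ∞ (fun y : ℂ × ℝ => y.1.re) := Complex.reCLM.contDiff.comp contDiff_fst
theorem IOa_im : ContDiff ℝ ∞ (fun y : ℂ × ℝ => y.1.im) := Complex.imCLM.contDiff.comp contDiff_fst

theorem IOa_Ds : ContDiff ℝ ∞ (fun y : ℂ × ℝ => ‖y.1‖ ^ 2 + y.2 ^ 2 + 1) :=
  (IOa_nsq.add (contDiff_snd.pow 2)).add contDiff_const

theorem io_coe_smooth : ContDiff ℝ ∞ (fun y : ℂ × ℝ => (io y : E4)) := by
  rw [contDiff_euclidean]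
  intro i
  simp only [io_coe]
  fin_cases i
  · exact (contDiff_const.mul IOa_re).div IOa_Ds fun y => (IOa_D y).ne'
  · exact (contDiff_const.mul IOa_im).div IOa_Ds fun y => (IOa_D y).ne'
  · exact ((IOa_nsq.add (contDiff_snd.pow 2)).sub contDiff_const).div IOa_Ds fun y => (IOa_D y).ne'
  · exact (contDiff_const.mul contDiff_snd).div IOa_Ds fun y => (IOa_D y).ne'

theorem IOa_mk {f g : ℂ × ℝ → ℝ} (hf : ContDiff ℝ ∞ f) (hg : ContDiff ℝ ∞ g) :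
    ContDiff ℝ ∞ fun y => (⟨f y, g y⟩ : ℂ) := by
  have h1 : ContDiff ℝ ∞ fun z : ℝ × ℝ => (⟨z.1, z.2⟩ : ℂ) :=
    Complex.equivRealProdCLM.symm.contDiff
  exact h1.comp (hf.prodMk hg)

theorem io_smooth : ContMDiff 𝓘(ℝ, ℂ × ℝ) (𝓡 3) ∞ io := by
  intro y
  have h1 : ContDiff ℝ ∞ fun y : ℂ × ℝ => 2 * y.1 := contDiff_const.mul contDiff_fst
  have h2 : ContDiff ℝ ∞ fun y : ℂ × ℝ => (⟨‖y.1‖ ^ 2 + y.2 ^ 2 - 1, 2 * y.2⟩ : ℂ) :=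
    IOa_mk ((IOa_nsq.add (contDiff_snd.pow 2)).sub contDiff_const) (contDiff_const.mul contDiff_snd)
  exact pS3_smooth h1.contMDiff.contMDiffAt h2.contMDiff.contMDiffAt (by
    rw [IOa_H y]
    have := IOa_D y
    positivity)

theorem pol_coe : (pol : E4) = WithLp.toLp 2 ![0, 0, 1, 0] := by
  unfold pol
  rw [IOa_coe (D := 1) one_pos (by simp)]
  simp

theorem IOa_sq (x : S3) : (x : E4) 0 ^ 2 + (x : E4) 1 ^ 2 + (x : E4) 2 ^ 2 + (x : E4) 3 ^ 2 = 1 := by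
  have h := S3_sq x
  rw [SphB_cx, SphB_cx] at h
  linarith

theorem ne_pol_iff (x : S3) : x ≠ pol ↔ (x : E4) 2 ≠ 1 := by
  constructor
  · intro h h2
    apply h
    have hs := IOa_sq x
    rw [h2] at hs
    have h0 : (x : E4) 0 = 0 := by
      have : (x : E4) 0 ^ 2 = 0 := by
        nlinarith [sq_nonneg ((x : E4) 0), sq_nonneg ((x : E4) 1), sq_nonneg ((x : E4) 3)]
      exact pow_eq_zero_iff (by norm_num) |>.1 this
    have h1 : (x : E4) 1 = 0 := by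
      have : (x : E4) 1 ^ 2 = 0 := by
        nlinarith [sq_nonneg ((x : E4) 0), sq_nonneg ((x : E4) 1), sq_nonneg ((x : E4) 3)]
      exact pow_eq_zero_iff (by norm_num) |>.1 this
    have h3 : (x : E4) 3 = 0 := by
      have : (x : E4) 3 ^ 2 = 0 := by
        nlinarith [sq_nonneg ((x : E4) 0), sq_nonneg ((x : E4) 1), sq_nonneg ((x : E4) 3)]
      exact pow_eq_zero_iff (by norm_num) |>.1 this
    apply Subtype.ext
    rw [pol_coe]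
    ext i
    fin_cases i
    · exact h0
    · exact h1
    · exact h2
    · exact h3
  · rintro h rfl
    apply h
    rw [pol_coe]
    rfl

theorem oi_io (y : ℂ × ℝ) : oi (io y) = y := by
  have hD := (IOa_D y).ne'
  have e0 : (io y : E4) 0 = 2 * y.1.re / (‖y.1‖ ^ 2 + y.2 ^ 2 + 1) := by rw [io_coe]; rfl
  have e1 : (io y : E4) 1 = 2 * y.1.im / (‖y.1‖ ^ 2 + y.2 ^ 2 + 1) := by rw [io_coe]; rfl
  have e2 : (io y : E4) 2 = (‖y.1‖ ^ 2 + y.2 ^ 2 - 1) / (‖y.1‖ ^ 2 + y.2 ^ 2 + 1) := by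
    rw [io_coe]; rfl
  have e3 : (io y : E4) 3 = 2 * y.2 / (‖y.1‖ ^ 2 + y.2 ^ 2 + 1) := by rw [io_coe]; rfl
  have e4 : 1 - (io y : E4) 2 = 2 / (‖y.1‖ ^ 2 + y.2 ^ 2 + 1) := by
    rw [e2]
    field_simp
    ring
  unfold oi oiE
  rw [e4, e0, e1, e3]
  have key : ∀ a : ℝ, 2 * a / (‖y.1‖ ^ 2 + y.2 ^ 2 + 1) / (2 / (‖y.1‖ ^ 2 + y.2 ^ 2 + 1)) = a := by
    intro a
    field_simp
  rw [key, key, key]

theorem IOa_cx (a b : ℝ) : ‖(⟨a, b⟩ : ℂ)‖ ^ 2 = a ^ 2 + b ^ 2 := SphB_cx a b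

theorem io_oi {x : S3} (hx : x ≠ pol) : io (oi x) = x := by
  have h2 := (ne_pol_iff x).1 hx
  have hs := IOa_sq x
  have h3 : 1 - (x : E4) 2 ≠ 0 := fun h => h2 (by linarith)
  have hD : ‖(oi x).1‖ ^ 2 + (oi x).2 ^ 2 + 1 = 2 / (1 - (x : E4) 2) := by
    unfold oi oiE
    simp only [IOa_cx]
    field_simp
    linear_combination hs
  apply Subtype.ext
  rw [io_coe, hD]
  have hD2 : ‖(oi x).1‖ ^ 2 + (oi x).2 ^ 2 - 1 = 2 / (1 - (x : E4) 2) - 2 := by linarith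
  rw [hD2]
  have key : ∀ a : ℝ, 2 * (a / (1 - (x : E4) 2)) / (2 / (1 - (x : E4) 2)) = a := by
    intro a
    field_simp
  ext i
  fin_cases i
  · exact key _
  · exact key _
  · show (2 / (1 - (x : E4) 2) - 2) / (2 / (1 - (x : E4) 2)) = (x : E4) 2
    field_simp
    ring
  · exact key _

theorem io_ne (y : ℂ × ℝ) : io y ≠ pol := by
  rw [ne_pol_iff]
  have e2 : (io y : E4) 2 = (‖y.1‖ ^ 2 + y.2 ^ 2 - 1) / (‖y.1‖ ^ 2 + y.2 ^ 2 + 1) := by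
    rw [io_coe]; rfl
  rw [e2]
  intro h
  rw [div_eq_one_iff_eq (IOa_D y).ne'] at h
  linarith

theorem io_inj : Function.Injective io := Function.LeftInverse.injective oi_io

theorem IOa_proj (i : Fin 4) : ContDiff ℝ ∞ fun x : E4 => x i :=
  (EuclideanSpace.proj (𝕜 := ℝ) i).contDiff

theorem IOa_mkAt {V : Type*} [NormedAddCommGroup V] [NormedSpace ℝ V] {f g : V → ℝ} {x : V}
    (hf : ContDiffAt ℝ ∞ f x) (hg : ContDiffAt ℝ ∞ g x) :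
    ContDiffAt ℝ ∞ (fun y => (⟨f y, g y⟩ : ℂ)) x := by
  have h1 : ContDiff ℝ ∞ fun z : ℝ × ℝ => (⟨z.1, z.2⟩ : ℂ) :=
    Complex.equivRealProdCLM.symm.contDiff
  exact h1.contDiffAt.comp x (hf.prodMk hg)

theorem oiE_smooth {x : E4} (hx : x 2 ≠ 1) : ContDiffAt ℝ ∞ oiE x := by
  have h1 : ContDiffAt ℝ ∞ (fun x : E4 => 1 - x 2) x :=
    (contDiff_const.sub (IOa_proj 2)).contDiffAt
  have h2 : 1 - x 2 ≠ 0 := fun h => hx (by linarith)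
  exact (IOa_mkAt ((IOa_proj 0).contDiffAt.div h1 h2) ((IOa_proj 1).contDiffAt.div h1 h2)).prodMk
    ((IOa_proj 3).contDiffAt.div h1 h2)

theorem IOa_coeS : ContMDiff (𝓡 3) 𝓘(ℝ, E4) ∞ (fun x : S3 => (x : E4)) := by
  have := Fact.mk (@finrank_euclideanSpace_fin ℝ _ (3 + 1))
  exact contMDiff_coe_sphere (n := 3)

theorem oi_smooth {x : S3} (hx : x ≠ pol) : ContMDiffAt (𝓡 3) 𝓘(ℝ, ℂ × ℝ) ∞ oi x := by
  have h1 := (oiE_smooth ((ne_pol_iff x).1 hx)).contMDiffAt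
  exact h1.comp x IOa_coeS.contMDiffAt

theorem IOa_open (a : ℝ) : IsOpen {x : S3 | (x : E4) 2 ≠ a} := by
  have h : Continuous fun x : S3 => (x : E4) 2 := (IOa_proj 2).continuous.comp continuous_subtype_val
  exact isOpen_ne.preimage h

theorem io_ld (y : ℂ × ℝ) : IsLocalDiffeomorphAt 𝓘(ℝ, ℂ × ℝ) (𝓡 3) ∞ io y := by
  have hev : ∀ᶠ z : S3 in 𝓝 (io y), (z : E4) 2 ≠ 1 :=
    (IOa_open 1).mem_nhds ((ne_pol_iff _).1 (io_ne y))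
  refine ld_two (g := oi) (Eventually.of_forall fun z => io_smooth z) ?_
    (Eventually.of_forall oi_io) ?_
  · filter_upwards [hev] with z hz
    exact oi_smooth ((ne_pol_iff z).2 hz)
  · filter_upwards [hev] with z hz
    exact io_oi ((ne_pol_iff z).2 hz)

theorem io'_coe (y : ℂ × ℝ) : (io' y : E4) = WithLp.toLp 2
    ![2 * y.1.re / (‖y.1‖ ^ 2 + y.2 ^ 2 + 1), 2 * y.1.im / (‖y.1‖ ^ 2 + y.2 ^ 2 + 1),
      (1 - ‖y.1‖ ^ 2 - y.2 ^ 2) / (‖y.1‖ ^ 2 + y.2 ^ 2 + 1),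
      2 * y.2 / (‖y.1‖ ^ 2 + y.2 ^ 2 + 1)] := by
  unfold io'
  rw [IOa_coe (IOa_D y) (IOa_H' y)]
  have e1 : (2 * y.1).re = 2 * y.1.re := by simp
  have e2 : (2 * y.1).im = 2 * y.1.im := by simp
  rw [e1, e2]

theorem io'_smooth : ContMDiff 𝓘(ℝ, ℂ × ℝ) (𝓡 3) ∞ io' := by
  intro y
  have h1 : ContDiff ℝ ∞ fun y : ℂ × ℝ => 2 * y.1 := contDiff_const.mul contDiff_fst
  have h2 : ContDiff ℝ ∞ fun y : ℂ × ℝ => (⟨1 - ‖y.1‖ ^ 2 - y.2 ^ 2, 2 * y.2⟩ : ℂ) :=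
    IOa_mk ((contDiff_const.sub IOa_nsq).sub (contDiff_snd.pow 2)) (contDiff_const.mul contDiff_snd)
  exact pS3_smooth h1.contMDiff.contMDiffAt h2.contMDiff.contMDiffAt (by
    rw [IOa_H' y]
    have := IOa_D y
    positivity)

theorem IOa'_two (y : ℂ × ℝ) :
    (io' y : E4) 2 = (1 - ‖y.1‖ ^ 2 - y.2 ^ 2) / (‖y.1‖ ^ 2 + y.2 ^ 2 + 1) := by
  rw [io'_coe]; rfl

theorem IOa'_ne (y : ℂ × ℝ) : (io' y : E4) 2 ≠ -1 := by
  rw [IOa'_two]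
  intro h
  rw [div_eq_iff (IOa_D y).ne'] at h
  linarith

theorem oi'_io' (y : ℂ × ℝ) : oi' (io' y) = y := by
  have hD := (IOa_D y).ne'
  have e0 : (io' y : E4) 0 = 2 * y.1.re / (‖y.1‖ ^ 2 + y.2 ^ 2 + 1) := by rw [io'_coe]; rfl
  have e1 : (io' y : E4) 1 = 2 * y.1.im / (‖y.1‖ ^ 2 + y.2 ^ 2 + 1) := by rw [io'_coe]; rfl
  have e3 : (io' y : E4) 3 = 2 * y.2 / (‖y.1‖ ^ 2 + y.2 ^ 2 + 1) := by rw [io'_coe]; rfl
  have e4 : 1 + (io' y : E4) 2 = 2 / (‖y.1‖ ^ 2 + y.2 ^ 2 + 1) := by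
    rw [IOa'_two]
    field_simp
    ring
  unfold oi' oiE'
  rw [e4, e0, e1, e3]
  have key : ∀ a : ℝ, 2 * a / (‖y.1‖ ^ 2 + y.2 ^ 2 + 1) / (2 / (‖y.1‖ ^ 2 + y.2 ^ 2 + 1)) = a := by
    intro a
    field_simp
  rw [key, key, key]

theorem io'_oi' {x : S3} (hx : (x : E4) 2 ≠ -1) : io' (oi' x) = x := by
  have hs := IOa_sq x
  have h3 : 1 + (x : E4) 2 ≠ 0 := fun h => hx (by linarith)
  have hD : ‖(oi' x).1‖ ^ 2 + (oi' x).2 ^ 2 + 1 = 2 / (1 + (x : E4) 2) := by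
    unfold oi' oiE'
    simp only [IOa_cx]
    field_simp
    linear_combination hs
  apply Subtype.ext
  rw [io'_coe, hD]
  have hD2 : 1 - ‖(oi' x).1‖ ^ 2 - (oi' x).2 ^ 2 = 2 - 2 / (1 + (x : E4) 2) := by linarith
  rw [hD2]
  have key : ∀ a : ℝ, 2 * (a / (1 + (x : E4) 2)) / (2 / (1 + (x : E4) 2)) = a := by
    intro a
    field_simp
  ext i
  fin_cases i
  · exact key _
  · exact key _
  · show (2 - 2 / (1 + (x : E4) 2)) / (2 / (1 + (x : E4) 2)) = (x : E4) 2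
    field_simp
    ring
  · exact key _

theorem io'_inj : Function.Injective io' := Function.LeftInverse.injective oi'_io'

theorem oiE'_smooth {x : E4} (hx : x 2 ≠ -1) : ContDiffAt ℝ ∞ oiE' x := by
  have h1 : ContDiffAt ℝ ∞ (fun x : E4 => 1 + x 2) x :=
    (contDiff_const.add (IOa_proj 2)).contDiffAt
  have h2 : 1 + x 2 ≠ 0 := fun h => hx (by linarith)
  exact (IOa_mkAt ((IOa_proj 0).contDiffAt.div h1 h2) ((IOa_proj 1).contDiffAt.div h1 h2)).prodMk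
    ((IOa_proj 3).contDiffAt.div h1 h2)

theorem oi'_smooth {x : S3} (hx : (x : E4) 2 ≠ -1) :
    ContMDiffAt (𝓡 3) 𝓘(ℝ, ℂ × ℝ) ∞ oi' x := by
  have h1 := (oiE'_smooth hx).contMDiffAt
  exact h1.comp x IOa_coeS.contMDiffAt

theorem io'_ld (y : ℂ × ℝ) : IsLocalDiffeomorphAt 𝓘(ℝ, ℂ × ℝ) (𝓡 3) ∞ io' y := by
  have hev : ∀ᶠ z : S3 in 𝓝 (io' y), (z : E4) 2 ≠ -1 := (IOa_open (-1)).mem_nhds (IOa'_ne y)
  refine ld_two (g := oi') (Eventually.of_forall fun z => io'_smooth z) ?_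
    (Eventually.of_forall oi'_io') ?_
  · filter_upwards [hev] with z hz
    exact oi'_smooth hz
  · filter_upwards [hev] with z hz
    exact io'_oi' hz

end Pool.Agent.CLG
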