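import Pool.Agent.CLG.IOa
import Pool.Agent.RSG.ExM

/-!
# CLG/IOb: the unknot, the cotangent, embedded curves in the sphere  (difficulty 2)

* `Un_coe`: `‖(0, ex l)‖ = 1`.  `Un_smooth`, `Un_emb`: `ex` is smooth, `ex l = ex l'` iff
  `l' - l ∈ Z` (`ex_eq_iff`), the derivative of `l ↦ (0, 0, cos 2πl, sin 2πl)` is
  `2π (0, 0, -sin 2πl, cos 2πl) ≠ 0`.
* `ct`: `sin (π l) ≠ 0` iff `l` is not an integer; period `1` (both sine and cosine change sign).
  `io_ct`: with `t = cos a / sin a`, `a = π l`: `t² - 1 = cos 2a / sin² a`, `t² + 1 = 1 / sin² a`,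
  `2 t = sin 2a / sin² a`.  `io'_tan`: the same with `t = tan (π l)`, `cos (π l) ≠ 0` for `|l| < 1/2`.
* `act`: `act s ∈ (0, 1)` since `|arctan s| < π/2`;
  `ct (act s) = cos (π/2 - θ) / sin (π/2 - θ) = tan θ = s` for `θ = arctan s`; `act (ct l) = l` for
  `0 < l < 1`: `ct l = tan (π/2 - π l)`, `arctan (tan x) = x` for `|x| < π/2`.
* `emb_imm_iff`: `(K l : E4)` is the composition of the immersion `S3 → E4`
  (`mfderiv_coe_sphere_injective`) with `K`; the derivative of the composition is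
  `mfderiv coe (mfderiv K l 1)`.
* `emb_comp`: `mfderiv Φ` is injective for a diffeo `Φ`; use `emb_imm_iff`.
-/

open scoped Manifold ContDiff Topology
open Set Filter
open Complex (I)
open Pool.Agent.RSG

namespace Pool.Agent.CLG

theorem IOb_coe {a b : ℂ} (H : ‖a‖ ^ 2 + ‖b‖ ^ 2 = 1) :
    (pS3 a b : E4) = WithLp.toLp 2 ![a.re, a.im, b.re, b.im] := by
  have n1 : ‖(WithLp.toLp 2 ![a.re, a.im, b.re, b.im] : E4)‖ = 1 := by
    have : ‖(WithLp.toLp 2 ![a.re, a.im, b.re, b.im] : E4)‖ ^ 2 = 1 := by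
      rw [SphB_norm, Fin.sum_univ_four, ← H, ← SphB_cx', ← SphB_cx' b, ← add_assoc]
      rfl
    exact SphB_one this
  exact SphB_unit _ n1

theorem Un_coe (l : ℝ) : (Un l : E4) =
    WithLp.toLp 2 ![0, 0, Real.cos (2 * Real.pi * l), Real.sin (2 * Real.pi * l)] := by
  unfold Un
  rw [IOb_coe (by rw [norm_zero, ex_norm]; norm_num), ex_re, ex_im]
  rfl

theorem Un_int (m : ℤ) : Un m = pol := by
  unfold Un pol
  rw [ex_int]

theorem Un_add_one (l : ℝ) : Un (l + 1) = Un l := by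
  unfold Un
  have h := ex_add_int l 1
  rw [Int.cast_one] at h
  rw [h]

theorem IOb_lp {u : ℝ → Fin 4 → ℝ} {u' : Fin 4 → ℝ} {l : ℝ} (h : HasDerivAt u u' l) :
    HasDerivAt (fun l => (WithLp.toLp 2 (u l) : E4)) (WithLp.toLp 2 u') l :=
  ((PiLp.continuousLinearEquiv 2 ℝ (fun _ : Fin 4 => ℝ)).symm :
    (Fin 4 → ℝ) →L[ℝ] E4).hasFDerivAt.comp_hasDerivAt l h

theorem Un_deriv (l : ℝ) : HasDerivAt (fun l => (Un l : E4)) (WithLp.toLp 2
    ![0, 0, -(2 * Real.pi * Real.sin (2 * Real.pi * l)),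
      2 * Real.pi * Real.cos (2 * Real.pi * l)]) l := by
  have e : (fun l => (Un l : E4)) = fun l : ℝ => (WithLp.toLp 2
      (![0, 0, Real.cos (2 * Real.pi * l), Real.sin (2 * Real.pi * l)]) : E4) := funext Un_coe
  rw [e]
  refine IOb_lp ?_
  have h1 : HasDerivAt (fun l : ℝ => 2 * Real.pi * l) (2 * Real.pi) l := by
    simpa using (hasDerivAt_id l).const_mul (2 * Real.pi)
  rw [hasDerivAt_pi]
  intro i
  fin_cases i
  · exact hasDerivAt_const l (0 : ℝ)
  · exact hasDerivAt_const l (0 : ℝ)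
  · have h2 := h1.cos
    refine h2.congr_deriv ?_
    show _ = -(2 * Real.pi * Real.sin (2 * Real.pi * l))
    ring
  · have h2 := h1.sin
    refine h2.congr_deriv ?_
    show _ = 2 * Real.pi * Real.cos (2 * Real.pi * l)
    ring

theorem Un_emb : EmbS Un where
  smooth := by
    intro l
    exact pS3_smooth (a := fun _ => 0) (b := fun l => ex l) contMDiffAt_const
      ex_smooth.contMDiff.contMDiffAt (by rw [norm_zero, ex_norm]; norm_num)
  per := Un_add_one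
  inj := by
    intro l l' h
    have h1 := (pS3_c (a := 0) (b := ex l) (by rw [norm_zero, ex_norm]; norm_num)).2
    have h2 := (pS3_c (a := 0) (b := ex l') (by rw [norm_zero, ex_norm]; norm_num)).2
    unfold Un at h
    rw [h] at h1
    exact ex_eq_iff.1 (h1.symm.trans h2)
  imm := by
    intro l h
    rw [(Un_deriv l).deriv] at h
    have h2 := congrArg (fun v : E4 => v 2) h
    have h3 := congrArg (fun v : E4 => v 3) h
    have h2' : -(2 * Real.pi * Real.sin (2 * Real.pi * l)) = 0 := h2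
    have h3' : 2 * Real.pi * Real.cos (2 * Real.pi * l) = 0 := h3
    have hpi := Real.pi_ne_zero
    have h4 : Real.sin (2 * Real.pi * l) = 0 := by
      have : 2 * Real.pi * Real.sin (2 * Real.pi * l) = 0 := by linarith
      exact (mul_eq_zero.1 this).resolve_left (by positivity)
    have h5 : Real.cos (2 * Real.pi * l) = 0 := (mul_eq_zero.1 h3').resolve_left (by positivity)
    have h6 := Real.sin_sq_add_cos_sq (2 * Real.pi * l)
    rw [h4, h5] at h6
    norm_num at h6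

theorem sin_ne_iff (l : ℝ) : Real.sin (Real.pi * l) ≠ 0 ↔ ¬ ∃ m : ℤ, l = m := by
  have hpi := Real.pi_ne_zero
  rw [not_iff_not, Real.sin_eq_zero_iff]
  constructor
  · rintro ⟨n, hn⟩
    refine ⟨n, ?_⟩
    have h1 : Real.pi * l = Real.pi * n := by rw [← hn]; ring
    exact mul_left_cancel₀ hpi h1
  · rintro ⟨m, hm⟩
    exact ⟨m, by rw [hm]; ring⟩

theorem ct_add_one (l : ℝ) : ct (l + 1) = ct l := by
  unfold ct
  rw [mul_add, mul_one, Real.cos_add_pi, Real.sin_add_pi, neg_div_neg_eq]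

theorem ct_hasDerivAt {l : ℝ} (h : Real.sin (Real.pi * l) ≠ 0) :
    HasDerivAt ct (-(Real.pi / Real.sin (Real.pi * l) ^ 2)) l := by
  have h1 : HasDerivAt (fun l : ℝ => Real.pi * l) Real.pi l := by
    simpa using (hasDerivAt_id l).const_mul Real.pi
  have h2 := h1.cos.div h1.sin h
  refine h2.congr_deriv ?_
  have h3 := Real.sin_sq_add_cos_sq (Real.pi * l)
  rw [← neg_div]
  congr 1
  linear_combination (-Real.pi) * h3

theorem ct_smooth {l : ℝ} (h : Real.sin (Real.pi * l) ≠ 0) : ContDiffAt ℝ ∞ ct l := by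
  have h1 : ContDiff ℝ ∞ fun l : ℝ => Real.pi * l := contDiff_const.mul contDiff_id
  exact (Real.contDiff_cos.comp h1).contDiffAt.div (Real.contDiff_sin.comp h1).contDiffAt h

theorem io_ct {l : ℝ} (h : Real.sin (Real.pi * l) ≠ 0) : io (0, ct l) = Un l := by
  apply Subtype.ext
  rw [io_coe, Un_coe]
  obtain ⟨c, hc⟩ : ∃ c, c = Real.cos (Real.pi * l) := ⟨_, rfl⟩
  obtain ⟨σ, hσ⟩ : ∃ σ, σ = Real.sin (Real.pi * l) := ⟨_, rfl⟩
  have h3 : σ ^ 2 + c ^ 2 = 1 := by rw [hσ, hc]; exact Real.sin_sq_add_cos_sq (Real.pi * l)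
  have hσ0 : σ ≠ 0 := by rw [hσ]; exact h
  have e1 : Real.cos (2 * Real.pi * l) = c ^ 2 - σ ^ 2 := by
    rw [mul_assoc, Real.cos_two_mul, ← hc]
    linarith
  have e2 : Real.sin (2 * Real.pi * l) = 2 * σ * c := by
    rw [mul_assoc, Real.sin_two_mul, ← hσ, ← hc]
  have e3 : ct l = c / σ := by unfold ct; rw [hc, hσ]
  rw [e1, e2, e3]
  have e4 : (c / σ) ^ 2 + 1 = 1 / σ ^ 2 := by
    field_simp
    linarith
  congr 1
  funext i
  fin_cases i
  · simp
  · simp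
  · show (‖(0 : ℂ)‖ ^ 2 + (c / σ) ^ 2 - 1) / (‖(0 : ℂ)‖ ^ 2 + (c / σ) ^ 2 + 1) = c ^ 2 - σ ^ 2
    rw [norm_zero, zero_pow two_ne_zero, zero_add, e4]
    field_simp
  · show 2 * (c / σ) / (‖(0 : ℂ)‖ ^ 2 + (c / σ) ^ 2 + 1) = 2 * σ * c
    rw [norm_zero, zero_pow two_ne_zero, zero_add, e4]
    field_simp

theorem io'_tan {l : ℝ} (h : |l| < 1 / 2) :
    io' (0, Real.tan (Real.pi * l)) = Un l := by
  apply Subtype.ext
  rw [io'_coe, Un_coe]
  have hpi := Real.pi_pos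
  rw [abs_lt] at h
  have hcp : 0 < Real.cos (Real.pi * l) := by
    apply Real.cos_pos_of_mem_Ioo
    constructor
    · nlinarith [h.1, h.2]
    · nlinarith [h.1, h.2]
  obtain ⟨c, hc⟩ : ∃ c, c = Real.cos (Real.pi * l) := ⟨_, rfl⟩
  obtain ⟨σ, hσ⟩ : ∃ σ, σ = Real.sin (Real.pi * l) := ⟨_, rfl⟩
  have h3 : σ ^ 2 + c ^ 2 = 1 := by rw [hσ, hc]; exact Real.sin_sq_add_cos_sq (Real.pi * l)
  have hc0 : c ≠ 0 := by rw [hc]; exact hcp.ne'
  have e1 : Real.cos (2 * Real.pi * l) = c ^ 2 - σ ^ 2 := by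
    rw [mul_assoc, Real.cos_two_mul, ← hc]
    linarith
  have e2 : Real.sin (2 * Real.pi * l) = 2 * σ * c := by
    rw [mul_assoc, Real.sin_two_mul, ← hσ, ← hc]
  have e3 : Real.tan (Real.pi * l) = σ / c := by rw [Real.tan_eq_sin_div_cos, hc, hσ]
  rw [e1, e2, e3]
  have e4 : (σ / c) ^ 2 + 1 = 1 / c ^ 2 := by
    field_simp
    linarith
  congr 1
  funext i
  fin_cases i
  · simp
  · simp
  · show (1 - ‖(0 : ℂ)‖ ^ 2 - (σ / c) ^ 2) / (‖(0 : ℂ)‖ ^ 2 + (σ / c) ^ 2 + 1) = c ^ 2 - σ ^ 2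
    rw [norm_zero, zero_pow two_ne_zero, zero_add, sub_zero, e4]
    field_simp
  · show 2 * (σ / c) / (‖(0 : ℂ)‖ ^ 2 + (σ / c) ^ 2 + 1) = 2 * σ * c
    rw [norm_zero, zero_pow two_ne_zero, zero_add, e4]
    field_simp

theorem act_mem (s : ℝ) : 0 < act s ∧ act s < 1 := by
  have hpi := Real.pi_pos
  have h1 := Real.neg_pi_div_two_lt_arctan s
  have h2 := Real.arctan_lt_pi_div_two s
  unfold act
  constructor
  · have : Real.arctan s / Real.pi < 1 / 2 := by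
      rw [div_lt_iff₀ hpi]
      linarith
    linarith
  · have : -(1 / 2) < Real.arctan s / Real.pi := by
      rw [lt_div_iff₀ hpi]
      linarith
    linarith

theorem act_smooth : ContDiff ℝ ∞ act :=
  contDiff_const.sub (Real.contDiff_arctan.div_const _)

theorem act_hasDerivAt (s : ℝ) : HasDerivAt act (-(1 / (Real.pi * (1 + s ^ 2)))) s := by
  have h := ((Real.hasDerivAt_arctan s).div_const Real.pi).const_sub (1 / 2)
  refine h.congr_deriv ?_
  have hpi := Real.pi_ne_zero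
  have h1 : 1 + s ^ 2 ≠ 0 := by positivity
  field_simp

theorem ct_act (s : ℝ) : ct (act s) = s := by
  have hpi := Real.pi_ne_zero
  unfold ct act
  have e : Real.pi * (1 / 2 - Real.arctan s / Real.pi) = Real.pi / 2 - Real.arctan s := by
    field_simp
  rw [e, Real.cos_pi_div_two_sub, Real.sin_pi_div_two_sub, ← Real.tan_eq_sin_div_cos, Real.tan_arctan]

theorem act_ct {l : ℝ} (h0 : 0 < l) (h1 : l < 1) : act (ct l) = l := by
  have hpi := Real.pi_pos
  have e : ct l = Real.tan (Real.pi / 2 - Real.pi * l) := by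
    rw [Real.tan_eq_sin_div_cos, Real.sin_pi_div_two_sub, Real.cos_pi_div_two_sub]
    rfl
  unfold act
  rw [e, Real.arctan_tan (by nlinarith) (by nlinarith)]
  field_simp
  ring

theorem LC_line : LC (fun s => (0, s)) = Un := by
  classical
  funext l
  unfold LC
  by_cases h : ∃ m : ℤ, l = m
  · rw [if_pos h]
    obtain ⟨m, rfl⟩ := h
    exact (Un_int m).symm
  · rw [if_neg h]
    exact io_ct ((sin_ne_iff l).2 h)

theorem emb_imm_iff {K : ℝ → S3} {l : ℝ} (hK : ContMDiffAt 𝓘(ℝ, ℝ) (𝓡 3) ∞ K l) :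
    deriv (fun l => (K l : E4)) l ≠ 0 ↔ mfderiv 𝓘(ℝ, ℝ) (𝓡 3) K l (1 : ℝ) ≠ 0 := by
  have hF := Fact.mk (@finrank_euclideanSpace_fin ℝ _ (3 + 1))
  have h1 : MDifferentiableAt 𝓘(ℝ, ℝ) (𝓡 3) K l := hK.mdifferentiableAt (by simp)
  have h2 : MDifferentiableAt (𝓡 3) 𝓘(ℝ, E4) (Subtype.val : S3 → E4) (K l) :=
    (contMDiff_coe_sphere (n := 3) (m := ∞) (K l)).mdifferentiableAt (by simp)
  have h3 : mfderiv 𝓘(ℝ, ℝ) 𝓘(ℝ, E4) ((Subtype.val : S3 → E4) ∘ K) l =
      (mfderiv (𝓡 3) 𝓘(ℝ, E4) (Subtype.val : S3 → E4) (K l)).comp (mfderiv 𝓘(ℝ, ℝ) (𝓡 3) K l) :=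
    mfderiv_comp l h2 h1
  have h4 : deriv (fun l => (K l : E4)) l =
      mfderiv (𝓡 3) 𝓘(ℝ, E4) (Subtype.val : S3 → E4) (K l) (mfderiv 𝓘(ℝ, ℝ) (𝓡 3) K l (1 : ℝ)) := by
    rw [mfderiv_eq_fderiv] at h3
    have h5 := congrArg (fun L : ℝ →L[ℝ] E4 => L 1) h3
    exact h5
  rw [h4]
  have hinj := mfderiv_coe_sphere_injective (n := 3) (K l)
  rw [not_iff_not]
  constructor
  · intro h
    apply hinj
    rw [map_zero]
    exact h
  · intro h
    rw [h]
    exact map_zero _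

theorem emb_comp {K : ℝ → S3} (hK : EmbS K) (Φ : S3 ≃ₘ⟮𝓡 3, 𝓡 3⟯ S3) : EmbS (Φ ∘ K) where
  smooth := Φ.contMDiff.comp hK.smooth
  per := fun l => by
    show Φ (K (l + 1)) = Φ (K l)
    rw [hK.per]
  inj := fun l l' h => hK.inj l l' (Φ.injective h)
  imm := by
    intro l
    rw [emb_imm_iff (K := Φ ∘ K) (Φ.contMDiff.comp hK.smooth l)]
    have h1 := (emb_imm_iff (hK.smooth l)).1 (hK.imm l)
    have h2 : MDifferentiableAt 𝓘(ℝ, ℝ) (𝓡 3) K l := (hK.smooth l).mdifferentiableAt (by simp)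
    have h3 : MDifferentiableAt (𝓡 3) (𝓡 3) Φ (K l) := (Φ.contMDiff (K l)).mdifferentiableAt (by simp)
    rw [mfderiv_comp l h3 h2]
    intro h4
    apply h1
    have h5 := (Φ.mfderivToContinuousLinearEquiv (by simp) (K l)).injective
    apply h5
    rw [map_zero]
    exact h4

end Pool.Agent.CLG
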