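import Mathlib
import Pool.Agent.ISO.Defs
import Pool.Agent.RSG.Defs

/-!
# CLG/LnD: long curves and the stereographic projections, definitions (no proofs)

`E = C × R`, points `(w, h)`.  The axis is `{(0, s)}`.  We project along the real part of `w`: the
height of a point is `x = Re w`, its shadow is `c = Im w + i h`; `mk x c` is the curve with heights
`x` and shadow `c`.  The shadow of the axis is the line `{i s}`.
-/

open scoped Manifold ContDiff Topology
open Set Filter
open Complex (I)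
open Pool.Agent.RSG

namespace Pool.Agent.CLG

/-- the curve with heights `x` and shadow `c` -/
def mk (x : ℝ → ℝ) (c : ℝ → ℂ) (s : ℝ) : ℂ × ℝ := (⟨x s, (c s).re⟩, (c s).im)

/-- A long curve: embedded smooth curve in `C × R`, equal to the axis for `|s| ≥ T`. -/
structure Lng (T : ℝ) (k : ℝ → ℂ × ℝ) : Prop where
  smooth : ContDiff ℝ ∞ k
  inj : Function.Injective k
  imm : ∀ s, deriv k s ≠ 0
  line : ∀ s : ℝ, T ≤ |s| → k s = (0, s)

/-- Embedded smooth closed curve in `S3`. -/
structure EmbS (K : ℝ → S3) : Prop where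
  smooth : ContMDiff 𝓘(ℝ, ℝ) (𝓡 3) ∞ K
  per : ∀ l, K (l + 1) = K l
  inj : ∀ l l', K l = K l' → ∃ m : ℤ, l' = l + m
  imm : ∀ l, deriv (fun l => (K l : E4)) l ≠ 0

/-- inverse stereographic projection `C × R → S3 - {(0, 1)}` -/
noncomputable def io (y : ℂ × ℝ) : S3 := pS3 (2 * y.1) ⟨‖y.1‖ ^ 2 + y.2 ^ 2 - 1, 2 * y.2⟩

/-- stereographic projection from `(0, 1)` -/
noncomputable def oiE (x : E4) : ℂ × ℝ := (⟨x 0 / (1 - x 2), x 1 / (1 - x 2)⟩, x 3 / (1 - x 2))
noncomputable def oi (x : S3) : ℂ × ℝ := oiE x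

/-- inverse stereographic projection `C × R → S3 - {(0, -1)}` -/
noncomputable def io' (y : ℂ × ℝ) : S3 := pS3 (2 * y.1) ⟨1 - ‖y.1‖ ^ 2 - y.2 ^ 2, 2 * y.2⟩

/-- stereographic projection from `(0, -1)` -/
noncomputable def oiE' (x : E4) : ℂ × ℝ := (⟨x 0 / (1 + x 2), x 1 / (1 + x 2)⟩, x 3 / (1 + x 2))
noncomputable def oi' (x : S3) : ℂ × ℝ := oiE' x

/-- the point `(0, 1)` -/
noncomputable def pol : S3 := pS3 0 1

/-- the unknot `l ↦ (0, ex l)` -/
noncomputable def Un (l : ℝ) : S3 := pS3 0 (ex l)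

/-- the cotangent of `π l` -/
noncomputable def ct (l : ℝ) : ℝ := Real.cos (Real.pi * l) / Real.sin (Real.pi * l)

/-- the inverse function of `ct` on `(0, 1)` -/
noncomputable def act (s : ℝ) : ℝ := 1 / 2 - Real.arctan s / Real.pi

/-- the closure in `S3` of a long curve; the axis `s ↦ (0, s)` gives `Un` -/
noncomputable def LC (k : ℝ → ℂ × ℝ) (l : ℝ) : S3 :=
  open Classical in if ∃ m : ℤ, l = m then pol else io (k (ct l))

end Pool.Agent.CLG
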